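import Mathlib.Algebra.Category.Grp.FilteredColimits
import Mathlib.CategoryTheory.Limits.Shapes.Countable
import Mathlib.Topology.NoetherianSpace
import Mathlib.Topology.Sober
import Mathlib.CategoryTheory.Sites.Spaces
import Mathlib.CategoryTheory.Sites.SheafCohomology.Basic
import Mathlib.Combinatorics.Quiver.ReflQuiver

/-! PROJECT KEW, section 4: the abstract cohomological statement. -/

open CategoryTheory TopologicalSpace Opposite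

namespace Pool.Agent.KEW.Coh

variable {X : TopCat.{0}}

/-- Abelian sheaves on `X`. -/
abbrev Sh (X : TopCat.{0}) : Type 1 := Sheaf (Opens.grothendieckTopology X) AddCommGrpCat.{0}

instance (priority := high) hasSheafify (X : TopCat.{0}) :
    HasSheafify (Opens.grothendieckTopology X) AddCommGrpCat.{0} := inferInstance

section
variable {T : X → Type} [∀ x, AddCommGroup (T x)]

open Classical in
/-- The part of a chain that lives on the generisations of `z`. -/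
noncomputable def germ (z : X) : (Π₀ x, T x) →+ Π₀ x, T x :=
  DFinsupp.filterAddMonoidHom T fun w => w ⤳ z

/-- Chains with values in the subgroups `A w`. -/
def Deg (A : ∀ x, AddSubgroup (T x)) : AddSubgroup (Π₀ x, T x) where
  carrier := {b | ∀ w, b w ∈ A w}
  zero_mem' := fun w => (A w).zero_mem
  add_mem' := fun h h' w => (A w).add_mem (h w) (h' w)
  neg_mem' := fun h w => (A w).neg_mem (h w)

/-- Chains that vanish on `S`. -/
def Off (S : Set X) : AddSubgroup (Π₀ x, T x) where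
  carrier := {b | ∀ w ∈ S, b w = 0}
  zero_mem' := fun _ _ => rfl
  add_mem' := fun h h' w hw => by rw [DFinsupp.add_apply, h w hw, h' w hw, add_zero]
  neg_mem' := fun h w hw => by rw [DFinsupp.neg_apply, h w hw, neg_zero]

variable (Y : Set X) (rk : X → ℕ) (d : ℕ) (A : ℕ → ∀ x, AddSubgroup (T x))
  (D : (Π₀ x, T x) →+ Π₀ x, T x) (N₀ : X → AddSubgroup (Π₀ x, T x))

/-- Horizontal chains of degree `j` whose boundary vanishes on `Y ∩ S`. -/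
def Hor (j : ℕ) (S : Set X) : AddSubgroup (Π₀ x, T x) :=
  Deg (A j) ⊓ Off Y ⊓ (Off (Y ∩ S)).comap D

/-- The negligible germs in degree `j` (used at the points of `Y` of rank `d - j`). -/
noncomputable def Neg : ℕ → X → AddSubgroup (Π₀ x, T x)
  | 0, z => N₀ z
  | j + 1, z => (Hor Y A D j {y | y ⤳ z} ⊓
      ⨅ y ∈ {y | y ∈ Y ∧ y ⤳ z ∧ rk y + j = d}, (Neg j y).comap (germ y)).map ((germ z).comp D)

/-- The hypotheses on the complex of chains. -/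
structure Cx : Prop where
  closed : IsClosed Y
  lt : ∀ y ∈ Y, ∀ z, y ⤳ z → y ≠ z → rk z < rk y
  le : ∀ y ∈ Y, rk y ≤ d
  loc : ∀ (b : Π₀ x, T x) z, (∀ w, w ⤳ z → b w = 0) → D b z = 0
  deg : ∀ j, ∀ b ∈ Deg (A j), D b ∈ Deg (A (j + 1))
  dd : ∀ j, ∀ b ∈ Deg (A j), D (D b) = 0
  ex : ∀ j < d, ∀ z, ∀ c ∈ Deg (A (j + 1)), (∀ w, w ⤳ z → D c w = 0) →
    ∃ b ∈ Deg (A j), ∀ w, w ⤳ z → D b w = c w
  top : ∀ w, A (d + 1) w = ⊥
  bot : ∀ y ∈ Y, A 0 y = ⊥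
  dim : ∀ j, ∀ w ∉ Y, A j w ≠ ⊥ → ∀ z ∈ Y, w ⤳ z → rk z + j ≤ d
  move : ∀ j < d, ∀ y ∈ Y, ∀ m ∈ A (j + 1) y, ∃ b ∈ Deg (A j) ⊓ Off Y,
    D b y = m ∧ ∀ y' ∈ Y, y' ≠ y → D b y' = 0

/-- `F` is the sheaf of cycles of degree zero, `F'` lives on `Y`, and `N₀` is the kernel of the
restriction to `F'` modulo `q` at the points of rank `d`. -/
structure Aug (q : ℕ) (F F' : Sh X) (r : F ⟶ F')
    (ι : ∀ U : Opens X, F.obj.obj (op U) →+ Π₀ x, T x) : Prop where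
  deg : ∀ U s, ι U s ∈ Deg (A 0)
  off : ∀ U s, ∀ w ∉ U, ι U s w = 0
  nat : ∀ U V (h : V ≤ U) s, ∀ w ∈ V, ι V (F.obj.map (homOfLE h).op s) w = ι U s w
  cyc : ∀ U s, ∀ w ∈ U, D (ι U s) w = 0
  inj : ∀ U s, ι U s = 0 → s = 0
  sur : ∀ z, ∀ c ∈ Deg (A 0), (∀ w, w ⤳ z → D c w = 0) →
    ∃ U, z ∈ U ∧ ∃ s, ∀ w, w ⤳ z → ι U s w = c w
  van : ∀ z ∉ Y, ∀ U, z ∈ U → ∀ t : F'.obj.obj (op U),
    ∃ V, z ∈ V ∧ ∃ h : V ≤ U, F'.obj.map (homOfLE h).op t = 0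
  lift : ∀ z ∈ Y, d ≤ rk z + 1 → ∀ U, z ∈ U → ∀ t : F'.obj.obj (op U),
    ∃ V, z ∈ V ∧ ∃ h : V ≤ U, ∃ s, r.hom.app (op V) s = F'.obj.map (homOfLE h).op t
  ker : ∀ z ∈ Y, rk z = d → ∀ U, z ∈ U → ∀ s, germ z (ι U s) ∈ N₀ z ↔
    ∃ V, z ∈ V ∧ ∃ h : V ≤ U, ∃ t, F'.obj.map (homOfLE h).op (r.hom.app (op U) s) = q • t

/-- Global localisation modulo negligible germs. -/
def Localise : Prop :=
  ∀ j ≤ d, ∀ y ∈ Y, rk y + j = d → ∀ b ∈ Hor Y A D j {w | w ⤳ y}, ∃ b' ∈ Hor Y A D j Set.univ,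
    germ y (b' - b) ∈ Neg Y rk d A D N₀ j y ∧
    ∀ y' ∈ Y, rk y' + j = d → y' ≠ y → germ y' b' ∈ Neg Y rk d A D N₀ j y'

/-- Negligible chains of top degree are boundaries modulo `q`. -/
def Kill (q : ℕ) : Prop :=
  ∀ c ∈ Deg (A d) ⊓ Off Y, (∀ x ∈ Y, rk x = 0 → germ x c ∈ Neg Y rk d A D N₀ d x) →
    ∃ b, (b = 0 ∨ ∃ e, d = e + 1 ∧ b ∈ Deg (A e)) ∧ ∃ c' ∈ Deg (A d), c = D b + q • c'

end

/-- The restriction is bijective modulo `q` on the cohomology of degree `d`. -/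
def CohStmt : Prop :=
  ∀ (X : TopCat.{0}) [NoetherianSpace X] [QuasiSober X] [HasExt.{0} (Sh X)] (T : X → Type)
    [∀ x, AddCommGroup (T x)] (Y : Set X) (rk : X → ℕ) (d q : ℕ) (A : ℕ → ∀ x, AddSubgroup (T x))
    (D : (Π₀ x, T x) →+ Π₀ x, T x) (N₀ : X → AddSubgroup (Π₀ x, T x)) (F F' : Sh X) (r : F ⟶ F')
    (ι : ∀ U : Opens X, F.obj.obj (op U) →+ Π₀ x, T x),
    Cx Y rk d A D → Aug Y rk d A D N₀ q F F' r ι → Localise Y rk d A D N₀ → Kill Y rk d A D N₀ q →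
    (∀ c' : F'.H d, ∃ c e, c' = Sheaf.H.map r d c + q • e) ∧
      ∀ (c : F.H d) e, Sheaf.H.map r d c = q • e → ∃ c₁, c = q • c₁

end Pool.Agent.KEW.Coh
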