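import Mathlib.CategoryTheory.Abelian.GrothendieckCategory.HasExt
import Mathlib.Order.CompletePartialOrder
import Mathlib.Topology.Sheaves.Flasque
import Pool.Agent.MP_55d974_ag.coh.Spec

/-! PROJECT KEW, section 4: local calculus of sections, long exact sequences, flasque sheaves. -/

open CategoryTheory TopologicalSpace Opposite Limits Abelian

namespace Pool.Agent.KEW.Coh

variable {X : TopCat.{0}}

noncomputable instance (priority := high) preadd (X : TopCat.{0}) :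
    Preadditive (Sheaf (Opens.grothendieckTopology X) AddCommGrpCat.{0}) := Abelian.toPreadditive

noncomputable instance (priority := high) zeroMor (X : TopCat.{0}) :
    HasZeroMorphisms (Sheaf (Opens.grothendieckTopology X) AddCommGrpCat.{0}) :=
  Preadditive.preadditiveHasZeroMorphisms

/-- Short complexes of sheaves. -/
abbrev SC (X : TopCat.{0}) : Type 1 :=
  ShortComplex (Sheaf (Opens.grothendieckTopology X) AddCommGrpCat.{0})

/-- Restriction of sections. -/
noncomputable abbrev rs (F : Sh X) {U V : Opens X} (h : V ≤ U) :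
    F.obj.obj (op U) →+ F.obj.obj (op V) := (F.obj.map (homOfLE h).op).hom

/-- A morphism on sections. -/
noncomputable abbrev ap {F G : Sh X} (φ : F ⟶ G) (U : Opens X) :
    F.obj.obj (op U) →+ G.obj.obj (op U) := (φ.hom.app (op U)).hom

theorem rs_rs (F : Sh X) {U V W : Opens X} (h : V ≤ U) (h' : W ≤ V) (s) :
    rs F h' (rs F h s) = rs F (h'.trans h) s :=
  (ConcreteCategory.congr_hom (F.obj.map_comp (homOfLE h).op (homOfLE h').op) s).symm

theorem rs_refl (F : Sh X) {U : Opens X} (s) : rs F (le_refl U) s = s :=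
  ConcreteCategory.congr_hom (F.obj.map_id (op U)) s

theorem ap_rs {F G : Sh X} (φ : F ⟶ G) {U V : Opens X} (h : V ≤ U) (s) :
    ap φ V (rs F h s) = rs G h (ap φ U s) :=
  ConcreteCategory.congr_hom (φ.hom.naturality (homOfLE h).op) s

theorem ap_comp {F G K : Sh X} (φ : F ⟶ G) (ψ : G ⟶ K) (U : Opens X) (s) :
    ap (φ ≫ ψ) U s = ap ψ U (ap φ U s) := rfl

theorem ap_zero {F G K : Sh X} {φ : F ⟶ G} {ψ : G ⟶ K} (w : φ ≫ ψ = 0) (U : Opens X) (s) :
    ap ψ U (ap φ U s) = 0 := by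
  rw [← ap_comp, w]
  rfl

theorem hom_ext {F G : Sh X} {φ ψ : F ⟶ G} (h : ∀ U s, ap φ U s = ap ψ U s) : φ = ψ := by
  ext U s
  exact h U.unop s

/-- The stalk at `z` vanishes. -/
def Van (F : Sh X) (z : X) : Prop :=
  ∀ U, z ∈ U → ∀ t : F.obj.obj (op U), ∃ V, z ∈ V ∧ ∃ h : V ≤ U, rs F h t = 0

/-- Injective on the stalk at `z`. -/
def LInj {F G : Sh X} (φ : F ⟶ G) (z : X) : Prop :=
  ∀ U, z ∈ U → ∀ s, ap φ U s = 0 → ∃ V, z ∈ V ∧ ∃ h : V ≤ U, rs F h s = 0

/-- Surjective on the stalk at `z`. -/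
def LSur {F G : Sh X} (φ : F ⟶ G) (z : X) : Prop :=
  ∀ U, z ∈ U → ∀ t, ∃ V, z ∈ V ∧ ∃ h : V ≤ U, ∃ s, ap φ V s = rs G h t

theorem eq_zero_of_loc (F : Sh X) {U : Opens X} (s : F.obj.obj (op U))
    (h : ∀ z ∈ U, ∃ V, z ∈ V ∧ ∃ h : V ≤ U, rs F h s = 0) : s = 0 := by
  refine TopCat.Presheaf.section_ext (X := X) F U s 0 fun z hz => ?_
  obtain ⟨V, hV, le, e⟩ := h z hz
  exact TopCat.Presheaf.germ_ext (X := X) F.obj V hV (homOfLE le) (homOfLE le)
    (e.trans (map_zero _).symm)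

theorem epi_iff {F G : Sh X} (φ : F ⟶ G) : Epi φ ↔ ∀ z, LSur φ z := by
  refine (TopCat.Sheaf.isLocallySurjective_iff_epi (X := X) φ).symm.trans
    ((TopCat.Presheaf.isLocallySurjective_iff (X := X) φ.hom).trans ⟨fun h z U hz t => ?_,
      fun h U t z hz => ?_⟩)
  · obtain ⟨V, le, ⟨s, hs⟩, hV⟩ := h U t z hz
    exact ⟨V, hV, le, s, hs⟩
  · obtain ⟨V, hV, le, s, hs⟩ := h z U hz t
    exact ⟨V, le, ⟨s, hs⟩, hV⟩

theorem mono_iff {F G : Sh X} (φ : F ⟶ G) : Mono φ ↔ ∀ U s, ap φ U s = 0 → s = 0 := by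
  refine ⟨fun h U => (injective_iff_map_eq_zero _).1 ?_, fun h =>
    Sheaf.mono_of_injective φ fun U => (injective_iff_map_eq_zero _).2 (h U.unop)⟩
  have : Mono φ.hom := inferInstance
  exact (AddCommGrpCat.mono_iff_injective _).1 inferInstance

theorem lsur_of {F G : Sh X} {φ : F ⟶ G} (h : ∀ U t, ∃ s, ap φ U s = t) (z : X) : LSur φ z :=
  fun U hz t => ⟨U, hz, le_rfl, (h U t).imp fun _ e => e.trans (rs_refl G t).symm⟩

theorem linj_of {F G : Sh X} {φ : F ⟶ G} (h : ∀ U s, ap φ U s = 0 → s = 0) (z : X) : LInj φ z :=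
  fun U hz s e => ⟨U, hz, le_rfl, by rw [h U s e, map_zero]⟩

theorem sec_exact {S : SC X} (hS : S.ShortExact) (U : Opens X) (s)
    (h : ap S.g U s = 0) : ∃ t, ap S.f U t = s :=
  TopCat.Sheaf.sections_exact_of_left_exact (X := X) hS.exact hS.mono_f s h

theorem shortExact_of {A B C : Sh X} {f : A ⟶ B} {g : B ⟶ C} (w : f ≫ g = 0)
    (inj : ∀ U s, ap f U s = 0 → s = 0) (ex : ∀ U s, ap g U s = 0 → ∃ t, ap f U t = s)
    (sur : ∀ z, LSur g z) : (ShortComplex.mk f g w).ShortExact := by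
  refine ShortComplex.ShortExact.mk' ?_ ((mono_iff f).2 inj) ((epi_iff g).2 sur)
  refine (ShortComplex.exact_iff_epi_kernel_lift _).2 ((epi_iff _).2 (lsur_of fun U t => ?_))
  obtain ⟨s, hs⟩ := ex U _ (ap_zero (kernel.condition g) U t)
  refine ⟨s, sub_eq_zero.1 ((mono_iff (kernel.ι g)).1 inferInstance U _ ?_)⟩
  rw [map_sub, ← ap_comp, kernel.lift_ι, hs, sub_self]

/-- The two short exact sequences of a morphism. -/
theorem factor {A B : Sh X} (φ : A ⟶ B) : ∃ (K I C : Sh X) (i : K ⟶ A) (e : A ⟶ I) (m : I ⟶ B)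
    (p : B ⟶ C) (w₁ : i ≫ e = 0) (w₂ : m ≫ p = 0), (ShortComplex.mk i e w₁).ShortExact ∧
      (ShortComplex.mk m p w₂).ShortExact ∧ e ≫ m = φ :=
  ⟨_, _, _, kernel.ι (Limits.factorThruImage φ), _, Limits.image.ι φ, cokernel.π _,
    kernel.condition _, cokernel.condition _,
    ShortComplex.ShortExact.mk' (ShortComplex.exact_kernel _) inferInstance inferInstance,
    ShortComplex.ShortExact.mk' (ShortComplex.exact_cokernel _) inferInstance inferInstance,
    Limits.image.fac φ⟩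

theorem van_ker {S : SC X} (hS : S.ShortExact) {B : Sh X} (m : S.X₃ ⟶ B) {z : X}
    (h : LInj (S.g ≫ m) z) : Van S.X₁ z := fun U hz t => by
  obtain ⟨V, hV, le, e⟩ := h U hz (ap S.f U t) (by rw [ap_comp, ap_zero S.zero, map_zero])
  exact ⟨V, hV, le, (mono_iff S.f).1 hS.mono_f V _ (by rw [ap_rs, e])⟩

theorem van_coker {S : SC X} (hS : S.ShortExact) {A : Sh X} (e : A ⟶ S.X₁) {z : X}
    (h : LSur (e ≫ S.f) z) : Van S.X₃ z := fun U hz t => by
  obtain ⟨V, hV, le, b, hb⟩ := (epi_iff S.g).1 hS.epi_g z U hz t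
  obtain ⟨W, hW, le', a, ha⟩ := h V hV b
  refine ⟨W, hW, le'.trans le, ?_⟩
  rw [← rs_rs _ le le', ← hb, ← ap_rs, ← ha, ap_comp, ap_zero S.zero]

theorem hx (X : TopCat.{0}) :
    HasExt.{0} (Sheaf (Opens.grothendieckTopology X) AddCommGrpCat.{0}) := inferInstance

attribute [local instance] hx

/-- Cohomology. -/
def Hc (F : Sh X) (n : ℕ) : Type := F.H n

noncomputable instance (F : Sh X) (n : ℕ) : AddCommGroup (Hc F n) :=
  inferInstanceAs (AddCommGroup (F.H n))

/-- Functoriality of cohomology. -/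
noncomputable def hm {F G : Sh X} (φ : F ⟶ G) (n : ℕ) : Hc F n →+ Hc G n := Sheaf.H.map φ n

/-- The connecting homomorphism. -/
noncomputable def dl {S : SC X} (hS : S.ShortExact) (n : ℕ) :
    Hc S.X₃ n →+ Hc S.X₁ (n + 1) := hS.extClass.postcomp _ rfl

section
variable {S : SC X} (hS : S.ShortExact) {n : ℕ}

theorem ex1 (x : Hc S.X₁ (n + 1)) (h : hm S.f _ x = 0) : ∃ y, dl hS n y = x :=
  Ext.covariant_sequence_exact₁ _ hS x h rfl

include hS in
theorem ex2 (x : Hc S.X₂ n) (h : hm S.g _ x = 0) : ∃ y, hm S.f _ y = x :=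
  Ext.covariant_sequence_exact₂ _ hS x h

theorem ex3 (x : Hc S.X₃ n) (h : dl hS n x = 0) : ∃ y, hm S.g _ y = x :=
  Ext.covariant_sequence_exact₃ _ hS x rfl h

theorem dl_map (y : Hc S.X₂ n) : dl hS n (hm S.g _ y) = 0 := by
  refine (Ext.comp_assoc_of_second_deg_zero y (Ext.mk₀ S.g) hS.extClass rfl).trans ?_
  rw [hS.comp_extClass]
  exact Ext.comp_zero _ _ _ _ _

theorem dl_nat {S' : SC X} (hS' : S'.ShortExact) (f : S ⟶ S') (x : Hc S.X₃ n) :
    hm f.τ₁ _ (dl hS n x) = dl hS' n (hm f.τ₃ _ x) := by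
  refine (Ext.comp_assoc_of_third_deg_zero x hS.extClass (Ext.mk₀ f.τ₁) rfl).trans
    (Eq.trans ?_ (Ext.comp_assoc_of_second_deg_zero x (Ext.mk₀ f.τ₃) hS'.extClass rfl).symm)
  rw [ShortComplex.ShortExact.extClass_naturality hS hS' f]

end

theorem map_map {F G K : Sh X} {φ : F ⟶ G} {ψ : G ⟶ K} {χ : F ⟶ K} (w : φ ≫ ψ = χ) {n : ℕ}
    (x : Hc F n) : hm ψ n (hm φ n x) = hm χ n x := by
  rw [← w]
  exact (Sheaf.H.map_comp_apply φ ψ x).symm

theorem map_zero' {F G : Sh X} {n : ℕ} (x : Hc F n) : hm (0 : F ⟶ G) n x = 0 := by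
  refine (congrArg (Ext.comp x · (add_zero n)) (Ext.mk₀_zero F G)).trans ?_
  exact Ext.comp_zero _ _ _ _ _

theorem map_nsmul' {F : Sh X} {n : ℕ} (q : ℕ) (x : Hc F n) :
    hm (q • 𝟙 F) n x = q • x := by
  induction q with
  | zero => rw [zero_smul, zero_smul, map_zero']
  | succ q ih =>
    rw [succ_nsmul, succ_nsmul, ← ih]
    exact (Sheaf.H.map_add_apply _ _ x).trans (congrArg _ (Sheaf.H.map_id_apply x))

/-- Global sections and the cohomology in degree zero. -/
noncomputable def h0 (F : Sh X) : Hc F 0 ≃+ F.obj.obj (op ⊤) := Sheaf.H.equiv₀ F isTerminalTop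

theorem h0_map {F G : Sh X} (φ : F ⟶ G) (x : Hc F 0) :
    h0 G (hm φ 0 x) = ap φ ⊤ (h0 F x) :=
  (Sheaf.H.equiv₀_naturality isTerminalTop φ x).symm

theorem sur0 {F G : Sh X} (φ : F ⟶ G) (h : ∀ t, ∃ s, ap φ ⊤ s = t) (y : Hc G 0) :
    ∃ x, hm φ 0 x = y := by
  obtain ⟨s, hs⟩ := h (h0 G y)
  exact ⟨(h0 F).symm s, (h0 G).injective (by rw [h0_map, AddEquiv.apply_symm_apply, hs])⟩

theorem inj0 {F G : Sh X} (φ : F ⟶ G) [Mono φ] (x : Hc F 0) (h : hm φ 0 x = 0) : x = 0 :=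
  (h0 F).injective (((mono_iff φ).1 inferInstance ⊤ _ (by rw [← h0_map, h, map_zero])).trans
    (map_zero _).symm)

theorem eq_zero_of_isZero {F : Sh X} (h : IsZero F) {n : ℕ} (x : Hc F n) : x = 0 :=
  (Sheaf.subsingleton_H_of_isZero h n).elim x 0

/-- No cohomology in positive degrees. -/
def Acy (F : Sh X) : Prop := ∀ n, ∀ x : Hc F (n + 1), x = 0

theorem acy_of_injective (F : Sh X) [Injective F] : Acy F := fun n x =>
  Subsingleton.elim (α := F.H (n + 1)) x 0

theorem acy_ker {S : SC X} (hS : S.ShortExact) (h₂ : Acy S.X₂) (h₃ : Acy S.X₃)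
    (h : ∀ t, ∃ s, ap S.g ⊤ s = t) : Acy S.X₁ := fun n x => by
  obtain ⟨y, rfl⟩ := ex1 hS x (h₂ _ _)
  cases n with
  | zero =>
    obtain ⟨z, rfl⟩ := sur0 S.g h y
    exact dl_map hS z
  | succ n => rw [h₃ n y, map_zero]

theorem flasque_of {F : Sh X} (h : ∀ U V (le : V ≤ U) t, ∃ s, rs F le s = t) :
    TopCat.Sheaf.IsFlasque (X := X) F :=
  ⟨fun i => (AddCommGrpCat.epi_iff_surjective _).2 (h _ _ (leOfHom i.unop))⟩

/-- The sheaf of all families of elements. -/
def full (T : X → Type) [∀ x, AddCommGroup (T x)] : Sh X :=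
  ⟨{ obj := fun U => AddCommGrpCat.of (∀ x : U.unop, T x)
     map := fun i => AddCommGrpCat.ofHom
      { toFun := fun f x => f ⟨x, i.unop.le x.2⟩
        map_zero' := rfl
        map_add' := fun _ _ => rfl } }, by
    refine (TopCat.Presheaf.isSheaf_iff_isSheafUniqueGluing (X := X) _).2 fun ι U sf h => ?_
    choose k hk using fun x : ↥(iSup U) => Opens.mem_iSup.1 x.2
    refine ⟨fun x => sf (k x) ⟨x, hk x⟩, fun i => funext fun x =>
      congrFun (h (k ⟨x, (le_iSup U i) x.2⟩) i) ⟨x, hk _, x.2⟩, fun s hs => funext fun x => ?_⟩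
    exact congrFun (hs (k x)) ⟨x, hk x⟩⟩

theorem flasque_of_injective (I : Sh X) [Injective I] : TopCat.Sheaf.IsFlasque (X := X) I := by
  classical
  let g : I ⟶ full fun x => (TopCat.Presheaf.stalk (X := X) I.obj x : AddCommGrpCat.{0}) :=
    ⟨{ app := fun U => AddCommGrpCat.ofHom
        (AddMonoidHom.pi fun x : U.unop => (TopCat.Presheaf.germ (X := X) I.obj U.unop x x.2).hom)
       naturality := fun U V i => AddCommGrpCat.hom_ext (AddMonoidHom.ext fun s =>
        funext fun x : V.unop => TopCat.Presheaf.germ_res_apply (X := X) I.obj i.unop x x.2 s) }⟩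
  have : Mono g := (mono_iff g).2 fun U s h =>
    TopCat.Presheaf.section_ext (X := X) I U s 0 fun z hz =>
      (congrFun h ⟨z, hz⟩).trans (map_zero _).symm
  refine flasque_of fun U V le t => ⟨ap (Injective.factorThru (𝟙 I) g) U fun x =>
    if h : x.1 ∈ V then ap g V t ⟨x, h⟩ else 0, ?_⟩
  refine (ap_rs _ le _).symm.trans ((congrArg _ (funext fun x => dif_pos x.2)).trans ?_)
  exact congrArg (fun φ => ap φ V t) (Injective.comp_factorThru (𝟙 I) g)

theorem acy_of_flasque (F : Sh X) (h : TopCat.Sheaf.IsFlasque (X := X) F) : Acy F := by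
  intro n
  induction n generalizing F with
  | zero =>
    intro x
    have hS : (ShortComplex.mk _ _ (cokernel.condition (Injective.ι F))).ShortExact :=
      ShortComplex.ShortExact.mk' (ShortComplex.exact_cokernel _) inferInstance inferInstance
    obtain ⟨y, rfl⟩ := ex1 hS x (acy_of_injective (Injective.under F) _ _)
    obtain ⟨z, rfl⟩ := sur0 _ ((AddCommGrpCat.epi_iff_surjective _).1
      (TopCat.Sheaf.IsFlasque.epi_of_shortExact (X := X) (U := ⊤) hS)) y
    exact dl_map hS z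
  | succ n ih =>
    intro x
    have hS : (ShortComplex.mk _ _ (cokernel.condition (Injective.ι F))).ShortExact :=
      ShortComplex.ShortExact.mk' (ShortComplex.exact_cokernel _) inferInstance inferInstance
    obtain ⟨y, rfl⟩ := ex1 hS x (acy_of_injective (Injective.under F) _ _)
    have := flasque_of_injective (Injective.under F)
    rw [ih _ (TopCat.Sheaf.IsFlasque.of_shortExact_of_isFlasque₁₂ (X := X) hS) y, map_zero]

end Pool.Agent.KEW.Coh
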