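import Mathlib.RingTheory.SimpleRing.Principal
import Mathlib.RingTheory.Henselian
import Mathlib.RingTheory.RegularLocalRing.Defs
import Mathlib.Tactic.Polynomial.Basic
import Pool.Agent.MP_55d974_ag.kew.KDefs
import Pool.Agent.MP_55d974_ag.coh.Basic
import Mathlib.Algebra.Torsor.Defs

-- ======== part 0: formerly Pool.Agent.MP_55d974_ag.kew.PnnA
section MrgPart0

/-! PROJECT KEW, projective Noether normalisation: the algebraic core. -/

open IsLocalRing

namespace Pool.Agent.KEW.PnnA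

noncomputable section

open Classical

variable {A E : Type} [CommRing A] [Field E] [Algebra A E] {N : ℕ}

/-- `b` is a unit of the subring `S`. -/
def U (S : Subring E) (b : E) : Prop := b ∈ S ∧ b ≠ 0 ∧ b⁻¹ ∈ S

theorem U.mul {S : Subring E} {b c : E} (hb : U S b) (hc : U S c) : U S (b * c) :=
  ⟨mul_mem hb.1 hc.1, mul_ne_zero hb.2.1 hc.2.1, by
    rw [mul_inv]
    exact mul_mem hb.2.2 hc.2.2⟩

theorem U.inv {S : Subring E} {b : E} (hb : U S b) : U S b⁻¹ :=
  ⟨hb.2.2, inv_ne_zero hb.2.1, by simpa using hb.1⟩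

theorem U.one (S : Subring E) : U S 1 := ⟨one_mem _, one_ne_zero, by simp⟩

theorem U.pow {S : Subring E} {b : E} (hb : U S b) (n : ℕ) : U S (b ^ n) := by
  induction n with
  | zero => simpa using U.one S
  | succ n ih =>
    rw [pow_succ]
    exact ih.mul hb

theorem U.left {S : Subring E} {b c : E} (h : U S (b * c)) (hb : b ∈ S) (hc : c ∈ S) : U S b := by
  have h0 := mul_ne_zero_iff.1 h.2.1
  refine ⟨hb, h0.1, ?_⟩
  have e : b⁻¹ = (b * c)⁻¹ * c := by
    have := h0.1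
    have := h0.2
    field_simp
  rw [e]
  exact mul_mem h.2.2 hc

theorem U.of_pow {S : Subring E} {b : E} (hb : b ∈ S) {n : ℕ} (hn : 1 ≤ n) (h : U S (b ^ n)) :
    U S b := by
  obtain ⟨m, rfl⟩ := Nat.exists_eq_add_of_le' hn
  rw [pow_succ'] at h
  exact h.left hb (pow_mem hb m)

theorem u_iff {S : Subring E} (b : S) : U S b ↔ IsUnit b := by
  rw [Submonoid.isUnit_iff_and]
  exact ⟨fun h => h.2, fun h => ⟨b.2, h⟩⟩

theorem U.add {S : Subring E} [IsLocalRing S] {b c : E} (hb : U S b) (hc : c ∈ S)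
    (h : ¬ U S c) : U S (b + c) := by
  by_contra h'
  have h1 : (⟨b + c, add_mem hb.1 hc⟩ : S) ∈ maximalIdeal S := by
    rw [mem_maximalIdeal, mem_nonunits_iff, ← u_iff]
    exact h'
  have h2 : (⟨c, hc⟩ : S) ∈ maximalIdeal S := by
    rw [mem_maximalIdeal, mem_nonunits_iff, ← u_iff]
    exact h
  have h3 := sub_mem h1 h2
  rw [mem_maximalIdeal, mem_nonunits_iff, ← u_iff] at h3
  exact h3 (by simpa using hb)

variable (A) in
/-- The chart rings. -/
def B (τ : Fin (N + 1) → E) (i : Fin (N + 1)) : Subring E :=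
  Subring.closure (Set.range (algebraMap A E) ∪ Set.range fun k => τ k / τ i)

variable {τ : Fin (N + 1) → E}

theorem alg_mem (i) (c : A) : algebraMap A E c ∈ B A τ i :=
  Subring.subset_closure (Or.inl ⟨c, rfl⟩)

theorem div_mem (i k) : τ k / τ i ∈ B A τ i := Subring.subset_closure (Or.inr ⟨k, rfl⟩)

theorem B_le {S : Subring E} {i} (h1 : ∀ c, algebraMap A E c ∈ S) (h2 : ∀ k, τ k / τ i ∈ S) :
    B A τ i ≤ S := by
  refine Subring.closure_le.2 ?_
  rintro _ (⟨c, rfl⟩ | ⟨k, rfl⟩)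
  exacts [h1 c, h2 k]

theorem noeth [IsNoetherianRing A] (i) : IsNoetherianRing (B A τ i) := by
  have e : B A τ i = (Algebra.adjoin A (Set.range fun k => τ k / τ i)).toSubring :=
    (Algebra.adjoin_eq_ring_closure _).symm
  rw [e]
  exact isNoetherianRing_of_fg (R := A) (S := Algebra.adjoin A (Set.range fun k => τ k / τ i))
    (Subalgebra.fg_def.2 ⟨_, Set.finite_range _, rfl⟩)

variable (A τ) in
/-- Forms of degree `e`. -/
def Form (e : ℕ) (F : E) : Prop := ∀ i, τ i ≠ 0 → F / τ i ^ e ∈ B A τ i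

theorem Form.add {e F G} (hF : Form A τ e F) (hG : Form A τ e G) : Form A τ e (F + G) :=
  fun i hi => by
    rw [add_div]
    exact add_mem (hF i hi) (hG i hi)

theorem Form.neg {e F} (hF : Form A τ e F) : Form A τ e (-F) := fun i hi => by
  rw [neg_div]
  exact neg_mem (hF i hi)

theorem Form.mul {e e' F G} (hF : Form A τ e F) (hG : Form A τ e' G) :
    Form A τ (e + e') (F * G) := fun i hi => by
  rw [pow_add, mul_div_mul_comm]
  exact mul_mem (hF i hi) (hG i hi)

theorem Form.pow {e F} (hF : Form A τ e F) (n : ℕ) : Form A τ (e * n) (F ^ n) := fun i hi => by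
  rw [pow_mul, ← div_pow]
  exact pow_mem (hF i hi) n

theorem form_alg (c : A) : Form A τ 0 (algebraMap A E c) := fun i _ => by
  simpa using alg_mem i c

theorem form_tau (k) : Form A τ 1 (τ k) := fun i _ => by
  simpa using div_mem i k

theorem form_up {i} {b : E} {n m : ℕ} (h : Form A τ n (b * τ i ^ n)) (hm : n ≤ m) :
    Form A τ m (b * τ i ^ m) := by
  obtain ⟨k, rfl⟩ := Nat.exists_eq_add_of_le hm
  have := h.mul ((form_tau (A := A) (τ := τ) i).pow k)
  rwa [one_mul, mul_assoc, ← pow_add] at this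

theorem form_of_mem {i} (hi : τ i ≠ 0) {b : E} (hb : b ∈ B A τ i) :
    ∃ n, Form A τ n (b * τ i ^ n) := by
  refine Subring.closure_induction (p := fun b _ => ∃ n, Form A τ n (b * τ i ^ n))
    ?_ ?_ ?_ ?_ ?_ ?_ hb
  · rintro _ (⟨c, rfl⟩ | ⟨k, rfl⟩)
    · exact ⟨0, by simpa using form_alg c⟩
    · exact ⟨1, by simpa [hi] using form_tau k⟩
  · exact ⟨0, by simpa using form_alg (τ := τ) (E := E) (0 : A)⟩
  · exact ⟨0, by simpa using form_alg (τ := τ) (E := E) (1 : A)⟩
  · rintro x y - - ⟨n, hn⟩ ⟨m, hm⟩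
    refine ⟨n + m, ?_⟩
    rw [add_mul]
    exact (form_up hn (by omega)).add (form_up hm (by omega))
  · rintro x - ⟨n, hn⟩
    exact ⟨n, by simpa using hn.neg⟩
  · rintro x y - - ⟨n, hn⟩ ⟨m, hm⟩
    refine ⟨n + m, ?_⟩
    have := hn.mul hm
    rwa [mul_mul_mul_comm, ← pow_add] at this

variable (A τ) in
/-- `i` is a chart for `S`. -/
def Ct (S : Subring E) (i : Fin (N + 1)) : Prop := τ i ≠ 0 ∧ B A τ i ≤ S

theorem Ct.u {S : Subring E} {i k} (hi : Ct A τ S i) (hk : Ct A τ S k) : U S (τ k / τ i) :=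
  ⟨hi.2 (div_mem i k), div_ne_zero hk.1 hi.1, by
    rw [inv_div]
    exact hk.2 (div_mem k i)⟩

theorem Ct.of_u {S : Subring E} {i k} (hi : Ct A τ S i) (h : U S (τ k / τ i)) : Ct A τ S k := by
  have hk : τ k ≠ 0 := fun e => h.2.1 (by simp [e])
  refine ⟨hk, B_le (fun c => hi.2 (alg_mem i c)) fun l => ?_⟩
  have e : τ l / τ k = τ l / τ i * (τ k / τ i)⁻¹ := by
    have := hi.1
    field_simp
  rw [e]
  exact mul_mem (hi.2 (div_mem i l)) h.2.2

variable (A τ) in
/-- The form `F` of degree `e` does not vanish at `S`. -/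
def NV (S : Subring E) (e : ℕ) (F : E) : Prop := ∀ i, Ct A τ S i → U S (F / τ i ^ e)

theorem nv_of {S : Subring E} {i e F} (hi : Ct A τ S i) (h : U S (F / τ i ^ e)) :
    NV A τ S e F := fun k hk => by
  have e1 : F / τ k ^ e = F / τ i ^ e * (τ i / τ k) ^ e := by
    have := hi.1
    have := hk.1
    rw [div_pow]
    field_simp
  rw [e1]
  exact h.mul ((hk.u hi).pow e)

theorem NV.mul {S : Subring E} {e e' F G} (hF : NV A τ S e F) (hG : NV A τ S e' G) :
    NV A τ S (e + e') (F * G) := fun i hi => by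
  rw [pow_add, mul_div_mul_comm]
  exact (hF i hi).mul (hG i hi)

theorem NV.pow {S : Subring E} {e F} (hF : NV A τ S e F) (n : ℕ) :
    NV A τ S (e * n) (F ^ n) := fun i hi => by
  rw [pow_mul, ← div_pow]
  exact (hF i hi).pow n

theorem NV.of_pow {S : Subring E} {e F n} (hF : Form A τ e F) (hn : 1 ≤ n)
    (h : NV A τ S (e * n) (F ^ n)) : NV A τ S e F := fun i hi => by
  have := h i hi
  rw [pow_mul, ← div_pow] at this
  exact U.of_pow (hi.2 (hF i hi.1)) hn this

theorem NV.left {S : Subring E} {e e' F G} (hF : Form A τ e F) (hG : Form A τ e' G)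
    (h : NV A τ S (e + e') (F * G)) : NV A τ S e F := fun i hi => by
  have := h i hi
  rw [pow_add, mul_div_mul_comm] at this
  exact this.left (hi.2 (hF i hi.1)) (hi.2 (hG i hi.1))

theorem NV.add {S : Subring E} [IsLocalRing S] {e F G} (hF : NV A τ S e F) (hG : Form A τ e G)
    (h : ¬ NV A τ S e G) : NV A τ S e (F + G) := fun i hi => by
  rw [add_div]
  exact (hF i hi).add (hi.2 (hG i hi.1)) fun h' => h (nv_of hi h')

theorem nv_tau {S : Subring E} {i} (hi : Ct A τ S i) : NV A τ S 1 (τ i) :=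
  nv_of hi (by simpa [hi.1] using U.one S)

variable (τ) in
/-- The points of a projective model. -/
structure Dat (π : A) {Z : Type} (O : Z → Subring E) (dl : Z → ℕ) (j : ℕ) : Prop where
  loc : ∀ z, IsLocalRing (O z)
  ex : ∀ z, ∃ i, Ct A τ (O z) i
  fr : ∀ z i, Ct A τ (O z) i → ∀ c ∈ O z, ∃ s ∈ B A τ i, U (O z) s ∧ c * s ∈ B A τ i
  pt : ∀ i, τ i ≠ 0 → ∀ P : Ideal (B A τ i), P.IsPrime →
    ∃ z, B A τ i ≤ O z ∧ ∀ b : B A τ i, b ∈ P ↔ ¬ U (O z) b
  lt : ∀ z z', O z ≤ O z' → z ≠ z' → dl z < dl z'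
  ver : ∀ z, ¬ U (O z) (algebraMap A E π) → dl z ≤ j

variable {π : A} {Z : Type} {O : Z → Subring E} {dl : Z → ℕ} {j : ℕ}

theorem Dat.le (D : Dat τ π O dl j) {z z' i} (h : Ct A τ (O z) i) (h' : B A τ i ≤ O z')
    (H : ∀ b ∈ B A τ i, U (O z) b → U (O z') b) : O z ≤ O z' := fun c hc => by
  obtain ⟨s, hs, h1, h2⟩ := D.fr z i h c hc
  have e : c = c * s * s⁻¹ := by
    have := h1.2.1
    field_simp
  rw [e]
  exact mul_mem (h' h2) (H s hs h1).2.2

/-- A form that separates two points. -/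
theorem Dat.sep (D : Dat τ π O dl j) {z z0} (h : ¬ O z0 ≤ O z) :
    ∃ e G, Form A τ e G ∧ NV A τ (O z0) e G ∧ ¬ NV A τ (O z) e G := by
  obtain ⟨i0, h0⟩ := D.ex z0
  by_cases hc : B A τ i0 ≤ O z
  · have : ¬ ∀ b ∈ B A τ i0, U (O z0) b → U (O z) b := fun H => h (D.le h0 hc H)
    push Not at this
    obtain ⟨b, hb, h1, h2⟩ := this
    obtain ⟨n, hn⟩ := form_of_mem h0.1 hb
    have e : b * τ i0 ^ n / τ i0 ^ n = b := by
      have := h0.1
      field_simp
    refine ⟨n, _, hn, nv_of h0 (by rwa [e]), fun H => h2 ?_⟩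
    have := H i0 ⟨h0.1, hc⟩
    rwa [e] at this
  · refine ⟨1, τ i0, form_tau i0, nv_tau h0, fun H => hc ?_⟩
    obtain ⟨i, hi⟩ := D.ex z
    exact (hi.of_u (by simpa using H i hi)).2

theorem Dat.sepF (D : Dat τ π O dl j) (z0) (T : Finset Z) (h : ∀ z ∈ T, ¬ O z0 ≤ O z) :
    ∃ e G, 1 ≤ e ∧ Form A τ e G ∧ NV A τ (O z0) e G ∧ ∀ z ∈ T, ¬ NV A τ (O z) e G := by
  induction T using Finset.induction_on with
  | empty =>
    obtain ⟨i, hi⟩ := D.ex z0
    exact ⟨1, τ i, le_rfl, form_tau i, nv_tau hi, by simp⟩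
  | insert a T _ ih =>
    obtain ⟨e, G, he, h1, h2, h3⟩ := ih fun z hz => h z (Finset.mem_insert_of_mem hz)
    obtain ⟨e', G', k1, k2, k3⟩ := D.sep (h a (Finset.mem_insert_self _ _))
    refine ⟨e + e', G * G', by omega, h1.mul k1, h2.mul k2, fun z hz H => ?_⟩
    rcases Finset.mem_insert.1 hz with rfl | hz
    · rw [add_comm, mul_comm] at H
      exact k3 (H.left k1 h1)
    · exact h3 z hz (H.left h1 k1)

/-- Homogeneous prime avoidance. -/
theorem Dat.avoid (D : Dat τ π O dl j) (x : Z) (T : Finset Z) :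
    ∃ e G, 1 ≤ e ∧ Form A τ e G ∧ ∀ z ∈ T, NV A τ (O z) e G := by
  induction T using Finset.induction_on_max_value dl with
  | empty =>
    obtain ⟨i, hi⟩ := D.ex x
    exact ⟨1, τ i, le_rfl, form_tau i, by simp⟩
  | insert a T ha hm ih =>
    obtain ⟨e, F, he, h1, h2⟩ := ih
    by_cases hF : NV A τ (O a) e F
    · refine ⟨e, F, he, h1, fun z hz => ?_⟩
      rcases Finset.mem_insert.1 hz with rfl | hz
      exacts [hF, h2 z hz]
    obtain ⟨e', G, he', k1, k2, k3⟩ := D.sepF a T fun z hz H =>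
      (D.lt a z H fun e => ha (e ▸ hz)).not_ge (hm z hz)
    have f1 := h1.pow e'
    have f2 := k1.pow e
    rw [mul_comm e' e] at f2
    refine ⟨e * e', F ^ e' + G ^ e, Nat.mul_pos he he', f1.add f2, fun z hz => ?_⟩
    have := D.loc z
    rcases Finset.mem_insert.1 hz with rfl | hz
    · rw [add_comm]
      refine NV.add ?_ f1 fun H => hF (H.of_pow h1 he')
      rw [mul_comm]
      exact k2.pow e
    · refine ((h2 z hz).pow e').add f2 fun H => k3 z hz ?_
      rw [mul_comm] at H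
      exact H.of_pow k1 he

/-- The top-dimensional points of a common zero set are finite in number. -/
theorem Dat.fin [IsNoetherianRing A] (D : Dat τ π O dl j) {ι : Type} (e : ι → ℕ) (F : ι → E)
    (hF : ∀ k, Form A τ (e k) (F k)) (m : ℕ)
    (hm : ∀ z, (∀ k, ¬ NV A τ (O z) (e k) (F k)) → dl z ≤ m) :
    {z | (∀ k, ¬ NV A τ (O z) (e k) (F k)) ∧ dl z = m}.Finite := by
  have key : ∀ i, {z | Ct A τ (O z) i ∧ (∀ k, ¬ NV A τ (O z) (e k) (F k)) ∧ dl z = m}.Finite := by
    intro i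
    by_cases hi : τ i = 0
    · refine Set.finite_empty.subset fun z hz => hz.1.1 hi
    have := noeth (A := A) (τ := τ) i
    let J : Ideal (B A τ i) := Ideal.span (Set.range fun k => ⟨_, hF k i hi⟩)
    have hfin := J.finite_minimalPrimes_of_isNoetherianRing
    choose p hp1 hp2 using D.pt i hi
    have : Finite J.minimalPrimes := hfin
    refine (Set.finite_range fun P : J.minimalPrimes => p P.1 P.2.1.1).subset ?_
    rintro z ⟨hz, h1, h2⟩
    have := D.loc z
    let P : Ideal (B A τ i) := (maximalIdeal (O z)).comap (Subring.inclusion hz.2)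
    have hP : ∀ b : B A τ i, b ∈ P ↔ ¬ U (O z) b := fun b => by
      rw [Ideal.mem_comap, mem_maximalIdeal, mem_nonunits_iff, ← u_iff]
      rfl
    have hJ : J ≤ P := by
      refine Ideal.span_le.2 ?_
      rintro _ ⟨k, rfl⟩
      exact (hP _).2 fun H => h1 k (nv_of hz H)
    obtain ⟨Q, hQ, hQP⟩ := Ideal.exists_minimalPrimes_le hJ
    refine ⟨⟨Q, hQ⟩, ?_⟩
    by_contra hne
    have hle : O z ≤ O (p Q hQ.1.1) := D.le hz (hp1 Q hQ.1.1) fun b hb H => by
      by_contra H'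
      exact (hP ⟨b, hb⟩).1 (hQP ((hp2 Q hQ.1.1 ⟨b, hb⟩).2 H')) H
    have h3 := D.lt _ _ hle (Ne.symm hne)
    have h4 := hm (p Q hQ.1.1) fun k H =>
      (hp2 Q hQ.1.1 ⟨_, hF k i hi⟩).1 (hQ.1.2 (Ideal.subset_span ⟨k, rfl⟩))
        (H i ⟨hi, hp1 Q hQ.1.1⟩)
    omega
  refine (Set.finite_iUnion key).subset fun z hz => ?_
  obtain ⟨i, hi⟩ := D.ex z
  exact Set.mem_iUnion.2 ⟨i, hi, hz⟩

theorem Dat.nv_pi (D : Dat τ π O dl j) (z) :
    NV A τ (O z) 0 (algebraMap A E π) ↔ U (O z) (algebraMap A E π) := by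
  obtain ⟨i, hi⟩ := D.ex z
  exact ⟨fun h => by simpa using h i hi, fun h => nv_of hi (by simpa using h)⟩

/-- Forms without common zero on the special fibre. -/
theorem Dat.forms [IsNoetherianRing A] (D : Dat τ π O dl j) (x : Z) (r : ℕ) :
    ∃ (e : ℕ) (F : ℕ → E), 1 ≤ e ∧ (∀ k, Form A τ e (F k)) ∧ (∀ k, NV A τ (O x) e (F k)) ∧
      ∀ z, ¬ U (O z) (algebraMap A E π) → (∀ k < r, ¬ NV A τ (O z) e (F k)) → dl z + r ≤ j := by
  induction r with
  | zero =>
    obtain ⟨i, hi⟩ := D.ex x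
    exact ⟨1, fun _ => τ i, le_rfl, fun _ => form_tau i, fun _ => nv_tau hi,
      fun z hz _ => D.ver z hz⟩
  | succ r ih =>
    obtain ⟨e, F, he, h1, h2, h3⟩ := ih
    have hfin := D.fin (ι := Option (Fin r)) (fun k => k.elim 0 fun _ => e)
      (fun k => k.elim (algebraMap A E π) fun k => F k)
      (fun k => by
        cases k with
        | none => exact form_alg π
        | some k => exact h1 k) (j - r)
      fun z hz => by
        have := h3 z (fun H => hz none ((D.nv_pi z).2 H)) fun k hk => hz (some ⟨k, hk⟩)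
        omega
    obtain ⟨e', G, he', k1, k2⟩ := D.avoid x (insert x hfin.toFinset)
    have f2 := k1.pow e
    rw [mul_comm e' e] at f2
    refine ⟨e * e', fun k => if k = r then G ^ e else F k ^ e', Nat.mul_pos he he',
      fun k => ?_, fun k => ?_, fun z hz H => ?_⟩
    · by_cases hk : k = r
      · simpa [hk] using f2
      · simpa [hk] using (h1 k).pow e'
    · by_cases hk : k = r
      · have := (k2 x (Finset.mem_insert_self _ _)).pow e
        rw [mul_comm] at this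
        simpa [hk] using this
      · simpa [hk] using (h2 k).pow e'
    · have h4 : ∀ k < r, ¬ NV A τ (O z) e (F k) := fun k hk H' =>
        H k (by omega) (by simpa [hk.ne] using H'.pow e')
      have h5 := h3 z hz h4
      by_contra h6
      have h7 : z ∈ hfin.toFinset := by
        rw [Set.Finite.mem_toFinset]
        refine ⟨fun k => ?_, by omega⟩
        cases k with
        | none => exact fun H' => hz ((D.nv_pi z).1 H')
        | some k => exact h4 k k.2
      have := (k2 z (Finset.mem_insert_of_mem h7)).pow e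
      rw [mul_comm] at this
      exact H r (by omega) (by simpa using this)

end

end Pool.Agent.KEW.PnnA

end MrgPart0

-- ======== part 1: formerly Pool.Agent.MP_55d974_ag.kew.KB
section MrgPart1

/-! Basic facts on the Milnor K-ring. -/

namespace Pool.Agent.KEW

noncomputable section

section ring

variable {R S : Type} [CommRing R] [CommRing S]

@[simp] theorem kneg_mul (x y : Kr R) : -x * y = -(x * y) := neg_mul x y

@[simp] theorem kmul_neg (x y : Kr R) : x * -y = -(x * y) := mul_neg x y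

theorem kneg_mul_neg (x y : Kr R) : -x * -y = x * y := neg_mul_neg x y

theorem ksub_mul (x y z : Kr R) : (x - y) * z = x * z - y * z := sub_mul x y z

theorem kmul_sub (x y z : Kr R) : x * (y - z) = x * y - x * z := mul_sub x y z

theorem sym_mul (a b : Rˣ) : sym (a * b) = sym a + sym b := by
  unfold sym
  rw [ofMul_mul, map_add, map_add]

@[simp] theorem sym_one : sym (1 : Rˣ) = 0 := by
  have := sym_mul (1 : Rˣ) 1
  simpa using this

theorem sym_inv (a : Rˣ) : sym a⁻¹ = -sym a := by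
  have := sym_mul a a⁻¹
  rw [mul_inv_cancel, sym_one] at this
  exact eq_neg_of_add_eq_zero_right this.symm

theorem sym_div (a b : Rˣ) : sym (a / b) = sym a - sym b := by
  rw [div_eq_mul_inv, sym_mul, sym_inv, sub_eq_add_neg]

theorem sym_pow (a : Rˣ) (n : ℕ) : sym (a ^ n) = n • sym a := by
  induction n with
  | zero => simp
  | succ n ih => rw [pow_succ, sym_mul, ih, succ_nsmul]

theorem sym_zpow (a : Rˣ) (n : ℤ) : sym (a ^ n) = n • sym a := by
  cases n with
  | ofNat n => simpa using sym_pow a n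
  | negSucc n => rw [zpow_negSucc, sym_inv, sym_pow, negSucc_zsmul]

theorem sym_prod {ι : Type*} (s : Finset ι) (f : ι → Rˣ) :
    sym (∏ i ∈ s, f i) = ∑ i ∈ s, sym (f i) := by
  classical
  induction s using Finset.induction_on with
  | empty => simp
  | insert i s hi ih => rw [Finset.prod_insert hi, Finset.sum_insert hi, sym_mul, ih]

theorem sym_st {a b : Rˣ} (h : (a : R) + b = 1) : sym a * sym b = 0 := by
  have := RingQuot.mkRingHom_rel (r := St R) ⟨rfl, a, b, h, rfl⟩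
  rw [map_mul, map_zero] at this
  exact this

/-- The universal property of the Milnor K-ring. -/
def klift {T : Type*} [Ring T] (g : Rˣ → T) (hm : ∀ a b, g (a * b) = g a + g b)
    (hs : ∀ a b : Rˣ, (a : R) + b = 1 → g a * g b = 0) : Kr R →+* T :=
  RingQuot.lift (r := St R) ⟨(TensorAlgebra.lift ℤ (AddMonoidHom.toIntLinearMap
    (AddMonoidHom.mk' (fun x : Additive Rˣ => g x.toMul) fun _ _ => hm _ _))).toRingHom, by
      rintro _ _ ⟨rfl, a, b, h, rfl⟩
      simpa using hs a b h⟩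

@[simp] theorem klift_sym {T : Type*} [Ring T] (g : Rˣ → T) (hm : ∀ a b, g (a * b) = g a + g b)
    (hs : ∀ a b : Rˣ, (a : R) + b = 1 → g a * g b = 0) (a : Rˣ) :
    klift g hm hs (sym a) = g a :=
  (RingQuot.lift_mkRingHom_apply _ _ _).trans (by simp)

theorem closure_sym : Subring.closure (Set.range (sym : Rˣ → Kr R)) = ⊤ := by
  rw [eq_top_iff]
  intro x _
  obtain ⟨y, rfl⟩ := RingQuot.mkRingHom_surjective (St R) x
  induction y using TensorAlgebra.induction with
  | algebraMap r =>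
    rw [eq_intCast, map_intCast]
    exact intCast_mem _ r
  | ι a => exact Subring.subset_closure ⟨a.toMul, rfl⟩
  | mul a b ha hb => rw [map_mul]; exact Subring.mul_mem _ (ha trivial) (hb trivial)
  | add a b ha hb => rw [map_add]; exact Subring.add_mem _ (ha trivial) (hb trivial)

/-- Induction over the subring generated by a set, by left multiplication with generators. -/
theorem closure_ind {T : Type*} [Ring T] {s : Set T} {P : T → Prop} (h1 : P 1)
    (hmul : ∀ a ∈ s, ∀ x ∈ Subring.closure s, P x → P (a * x))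
    (hadd : ∀ x y, P x → P y → P (x + y)) (hneg : ∀ x, P x → P (-x)) {x : T}
    (hx : x ∈ Subring.closure s) : P x := by
  rw [Subring.mem_closure_iff] at hx
  induction hx using AddSubgroup.closure_induction with
  | mem y hy =>
    induction hy using Submonoid.closure_induction_left with
    | one => exact h1
    | mul_left a ha y hy ih =>
      refine hmul a ha y ?_ ih
      exact Submonoid.closure_le (S := (Subring.closure s).toSubmonoid).2 Subring.subset_closure hy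
  | zero => simpa using hadd _ _ h1 (hneg _ h1)
  | add x y _ _ hx hy => exact hadd x y hx hy
  | neg x _ hx => exact hneg x hx

theorem kr_ind {P : Kr R → Prop} (h1 : P 1) (hmul : ∀ u x, P x → P (sym u * x))
    (hadd : ∀ x y, P x → P y → P (x + y)) (hneg : ∀ x, P x → P (-x)) (x : Kr R) : P x :=
  closure_ind (s := Set.range sym) h1 (by rintro _ ⟨a, rfl⟩ x _; exact hmul a x) hadd hneg
    (by rw [closure_sym]; trivial)

theorem kr_ext' {T : Type*} [Ring T] {f g : Kr R →+* T} (h : ∀ u, f (sym u) = g (sym u)) :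
    f = g :=
  RingHom.eq_of_eqOn_set_dense closure_sym (by rintro _ ⟨a, rfl⟩; exact h a)

theorem kr_hom_ext {G : Type*} [AddGroup G] {f g : Kr R →+ G} (h1 : f 1 = g 1)
    (h : ∀ u x, f (sym u * x) = g (sym u * x)) : f = g := by
  ext x
  exact kr_ind (P := fun x => f x = g x) h1 (fun u x _ => h u x)
    (fun x y hx hy => by rw [map_add, map_add, hx, hy])
    (fun x hx => by rw [map_neg, map_neg, hx]) x

theorem prod_mem_K (l : List Rˣ) : (l.map sym).prod ∈ K R l.length :=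
  AddSubgroup.subset_closure ⟨l, rfl, rfl⟩

theorem one_mem_K : (1 : Kr R) ∈ K R 0 := prod_mem_K []

theorem sym_mem_K (u : Rˣ) : sym u ∈ K R 1 := by simpa using prod_mem_K [u]

theorem K_ind {m : ℕ} {P : Kr R → Prop} (hmul : ∀ u, ∀ y ∈ K R m, P (sym u * y)) (h0 : P 0)
    (hadd : ∀ x y, P x → P y → P (x + y)) (hneg : ∀ x, P x → P (-x)) {x : Kr R}
    (hx : x ∈ K R (m + 1)) : P x := by
  induction hx using AddSubgroup.closure_induction with
  | mem y hy =>
    obtain ⟨l, hl, rfl⟩ := hy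
    cases l with
    | nil => simp at hl
    | cons u l =>
      rw [List.map_cons, List.prod_cons]
      refine hmul u _ ?_
      have : l.length = m := by simpa using hl
      exact this ▸ prod_mem_K l
  | zero => exact h0
  | add x y _ _ hx hy => exact hadd x y hx hy
  | neg x _ hx => exact hneg x hx

theorem mul_mem_K {m n : ℕ} {x y : Kr R} (hx : x ∈ K R m) (hy : y ∈ K R n) :
    x * y ∈ K R (m + n) := by
  induction hx using AddSubgroup.closure_induction with
  | mem x hx =>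
    obtain ⟨l, rfl, rfl⟩ := hx
    induction hy using AddSubgroup.closure_induction with
    | mem y hy =>
      obtain ⟨l', rfl, rfl⟩ := hy
      rw [← List.prod_append, ← List.map_append, ← List.length_append]
      exact prod_mem_K _
    | zero => simp
    | add y z _ _ hy hz => rw [mul_add]; exact add_mem hy hz
    | neg y _ hy => rw [kmul_neg]; exact neg_mem hy
  | zero => simp
  | add x z _ _ hx hz => rw [add_mul]; exact add_mem hx hz
  | neg x _ hx => rw [kneg_mul]; exact neg_mem hx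

theorem sym_mul_mem_K {m : ℕ} (u : Rˣ) {y : Kr R} (hy : y ∈ K R m) : sym u * y ∈ K R (m + 1) :=
  add_comm 1 m ▸ mul_mem_K (sym_mem_K u) hy

theorem mem_K_zero {x : Kr R} : x ∈ K R 0 ↔ ∃ n : ℤ, x = n := by
  constructor
  · intro hx
    induction hx using AddSubgroup.closure_induction with
    | mem y hy =>
      obtain ⟨l, hl, rfl⟩ := hy
      exact ⟨1, by simp [List.length_eq_zero_iff.1 hl]⟩
    | zero => exact ⟨0, by simp⟩
    | add x y _ _ hx hy =>
      obtain ⟨a, rfl⟩ := hx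
      obtain ⟨b, rfl⟩ := hy
      exact ⟨a + b, by simp⟩
    | neg x _ hx =>
      obtain ⟨a, rfl⟩ := hx
      exact ⟨-a, by simp⟩
  · rintro ⟨n, rfl⟩
    simpa using zsmul_mem (one_mem_K (R := R)) n

theorem mem_K_one {x : Kr R} : x ∈ K R 1 ↔ ∃ u, x = sym u := by
  refine ⟨fun hx => K_ind (m := 0) (P := fun x => ∃ u, x = sym u) ?_ ⟨1, by simp⟩ ?_ ?_ hx, ?_⟩
  · intro u y hy
    obtain ⟨n, rfl⟩ := mem_K_zero.1 hy
    exact ⟨u ^ n, by rw [sym_zpow, zsmul_eq_mul, Int.cast_comm]⟩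
  · rintro _ _ ⟨a, rfl⟩ ⟨b, rfl⟩
    exact ⟨a * b, (sym_mul a b).symm⟩
  · rintro _ ⟨a, rfl⟩
    exact ⟨a⁻¹, (sym_inv a).symm⟩
  · rintro ⟨u, rfl⟩
    exact sym_mem_K u

open Polynomial in
/-- The grading, as a ring map to polynomials. -/
def gr : Kr R →+* (Kr R)[X] :=
  klift (fun u => monomial 1 (sym u)) (fun a b => by rw [sym_mul, map_add])
    (fun a b h => by rw [monomial_mul_monomial, sym_st h, map_zero])

theorem gr_sym (u : Rˣ) : gr (sym u) = Polynomial.monomial 1 (sym u) := klift_sym _ _ _ _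

/-- The homogeneous component of degree `m`. -/
def proj (m : ℕ) : Kr R →+ Kr R where
  toFun x := (gr x).coeff m
  map_zero' := by simp
  map_add' x y := by simp

theorem proj_apply (m : ℕ) (x : Kr R) : proj m x = (gr x).coeff m := rfl

theorem proj_succ_sym_mul (m : ℕ) (u : Rˣ) (x : Kr R) :
    proj (m + 1) (sym u * x) = sym u * proj m x := by
  rw [proj_apply, proj_apply, map_mul, gr_sym, Polynomial.coeff_monomial_mul]

theorem proj_zero_sym_mul (u : Rˣ) (x : Kr R) : proj 0 (sym u * x) = 0 := by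
  rw [proj_apply, map_mul, gr_sym, Polynomial.mul_coeff_zero]
  simp

theorem proj_one (m : ℕ) : proj m (1 : Kr R) = if m = 0 then 1 else 0 := by
  rw [proj_apply, map_one, Polynomial.coeff_one]

theorem proj_mem (m : ℕ) (x : Kr R) : proj m x ∈ K R m := by
  induction x using kr_ind generalizing m with
  | h1 =>
    rw [proj_one]
    split_ifs with h
    · exact h ▸ one_mem_K
    · exact zero_mem _
  | hmul u x hx =>
    cases m with
    | zero => rw [proj_zero_sym_mul]; exact zero_mem _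
    | succ m => rw [proj_succ_sym_mul]; exact sym_mul_mem_K u (hx m)
  | hadd x y hx hy => rw [map_add]; exact add_mem (hx m) (hy m)
  | hneg x hx => rw [map_neg]; exact neg_mem (hx m)

theorem gr_of_mem {m : ℕ} {x : Kr R} (hx : x ∈ K R m) : gr x = Polynomial.monomial m x := by
  induction m generalizing x with
  | zero =>
    obtain ⟨n, rfl⟩ := mem_K_zero.1 hx
    rw [map_intCast, Polynomial.monomial_zero_left, map_intCast]
  | succ m ih =>
    refine K_ind (P := fun x => gr x = Polynomial.monomial (m + 1) x) ?_ (by simp) ?_ ?_ hx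
    · intro u y hy
      rw [map_mul, gr_sym, ih hy, Polynomial.monomial_mul_monomial, add_comm]
    · intro x y hx hy
      rw [map_add, map_add, hx, hy]
    · intro x hx
      rw [map_neg, map_neg, hx]

theorem proj_of_mem {m : ℕ} {x : Kr R} (hx : x ∈ K R m) : proj m x = x := by
  rw [proj_apply, gr_of_mem hx, Polynomial.coeff_monomial_same]

theorem proj_of_ne {m n : ℕ} {x : Kr R} (hx : x ∈ K R n) (h : m ≠ n) : proj m x = 0 := by
  rw [proj_apply, gr_of_mem hx, Polynomial.coeff_monomial_of_ne _ h]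

theorem proj_proj (m n : ℕ) (x : Kr R) : proj m (proj n x) = if m = n then proj n x else 0 := by
  split_ifs with h
  · rw [h, proj_of_mem (proj_mem n x)]
  · exact proj_of_ne (proj_mem n x) h

theorem mem_K_iff {m : ℕ} {x : Kr R} : x ∈ K R m ↔ proj m x = x :=
  ⟨proj_of_mem, fun h => h ▸ proj_mem m x⟩

theorem proj_kmap (φ : R →+* S) (m : ℕ) (x : Kr R) : proj m (kmap φ x) = kmap φ (proj m x) := by
  induction x using kr_ind generalizing m with
  | h1 =>
    rw [map_one, proj_one, proj_one]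
    split_ifs <;> simp
  | hmul u x hx =>
    rw [map_mul, kmap_sym]
    cases m with
    | zero => rw [proj_zero_sym_mul, proj_zero_sym_mul, map_zero]
    | succ m => rw [proj_succ_sym_mul, proj_succ_sym_mul, map_mul, kmap_sym, hx]
  | hadd x y hx hy => simp only [map_add, hx, hy]
  | hneg x hx => simp only [map_neg, hx]

theorem sum_proj (x : Kr R) : ∃ s : Finset ℕ, x = ∑ m ∈ s, proj m x := by
  refine ⟨(gr x).support, ?_⟩
  have h := kr_ext (f := (Polynomial.eval₂RingHom' (RingHom.id (Kr R)) 1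
    fun a => Commute.one_right a).comp gr) (g := RingHom.id _) fun u => by simp [gr_sym]
  have := DFunLike.congr_fun h x
  simp only [RingHom.comp_apply, Polynomial.eval₂RingHom'_apply, RingHom.id_apply,
    Polynomial.eval₂_eq_sum, Polynomial.sum_def, one_pow, mul_one] at this
  exact this.symm

theorem eq_zero_of_proj {x : Kr R} (h : ∀ m, proj m x = 0) : x = 0 := by
  obtain ⟨s, hs⟩ := sum_proj x
  rw [hs]
  exact Finset.sum_eq_zero fun m _ => h m

/-- Induction over homogeneous elements. -/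
theorem hom_ind {P : Kr R → Prop} (h : ∀ m, ∀ x ∈ K R m, P x)
    (hadd : ∀ x y, P x → P y → P (x + y)) (x : Kr R) : P x := by
  obtain ⟨s, hs⟩ := sum_proj x
  rw [hs]
  exact Finset.sum_induction _ P hadd (h 0 0 (zero_mem _)) fun m _ => h m _ (proj_mem m x)

/-- A degree-shifting additive map commutes with the homogeneous components. -/
theorem proj_shift {i : ℕ} {N : Kr R →+ Kr S} (hN : ∀ m, ∀ x ∈ K R (m + i), N x ∈ K S m)
    (h0 : ∀ m < i, ∀ x ∈ K R m, N x = 0) (m : ℕ) (x : Kr R) :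
    proj m (N x) = N (proj (m + i) x) := by
  refine hom_ind (P := fun x => proj m (N x) = N (proj (m + i) x)) (fun n x hx => ?_)
    (fun x y hx hy => by simp only [map_add, hx, hy]) x
  by_cases h : m + i = n
  · subst h
    rw [proj_of_mem hx, proj_of_mem (hN m x hx)]
  · rw [proj_of_ne hx h, map_zero]
    rcases lt_or_ge n i with h1 | h1
    · rw [h0 n h1 x hx, map_zero]
    · obtain ⟨n, rfl⟩ := Nat.exists_eq_add_of_le' h1
      exact proj_of_ne (hN n x hx) fun e => h (by rw [e])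

/-- The component of degree zero, as an integer. -/
def deg0 : Kr R →+* ℤ := klift (fun _ => 0) (by simp) (by simp)

@[simp] theorem deg0_sym (u : Rˣ) : deg0 (sym u) = 0 := klift_sym _ _ _ _

theorem proj_zero (x : Kr R) : proj 0 x = (deg0 x : ℤ) := by
  induction x using kr_ind with
  | h1 => simp [proj_one]
  | hmul u x _ => simp [proj_zero_sym_mul]
  | hadd x y hx hy => simp only [map_add, hx, hy, Int.cast_add]
  | hneg x hx => simp only [map_neg, hx, Int.cast_neg]

theorem deg0_kmap (φ : R →+* S) (x : Kr R) : deg0 (kmap φ x) = deg0 x :=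
  DFunLike.congr_fun (kr_ext (f := deg0.comp (kmap φ)) (g := deg0) fun u => by
    simp [kmap_sym]) x

theorem deg0_of_mem {m : ℕ} {x : Kr R} (hx : x ∈ K R (m + 1)) : deg0 x = 0 :=
  K_ind (P := fun x => deg0 x = 0) (fun u y _ => by simp) (by simp)
    (fun x y hx hy => by rw [map_add, hx, hy, add_zero])
    (fun x hx => by rw [map_neg, hx, neg_zero]) hx

instance : CharZero (Kr R) :=
  ⟨fun a b h => by simpa using congrArg (deg0 (R := R)) h⟩

theorem sym_injective : Function.Injective (sym : Rˣ → Kr R) := by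
  let : Module ℤᵐᵒᵖ (Additive Rˣ) := Module.compHom _ ((RingHom.id ℤ).fromOpposite mul_comm)
  have : IsCentralScalar ℤ (Additive Rˣ) := ⟨fun _ _ => rfl⟩
  intro a b h
  have := congrArg (klift (T := TrivSqZeroExt ℤ (Additive Rˣ))
    (fun u => TrivSqZeroExt.inr (Additive.ofMul u))
    (fun a b => by rw [ofMul_mul, TrivSqZeroExt.inr_add])
    (fun a b _ => TrivSqZeroExt.inr_mul_inr _ _ _)) h
  rw [klift_sym, klift_sym] at this
  exact Additive.ofMul.injective (TrivSqZeroExt.inr_injective this)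

theorem sym_eq_zero {u : Rˣ} : sym u = 0 ↔ u = 1 := by
  rw [← sym_one, sym_injective.eq_iff]

/-- The grading involution. -/
def sgn : Kr R →+* Kr R :=
  klift (fun a => -sym a) (fun a b => by rw [sym_mul, neg_add]) (fun a b h => by
    rw [kneg_mul_neg, sym_st h])

@[simp] theorem sgn_sym (a : Rˣ) : sgn (sym a) = -sym a := klift_sym _ _ _ _

@[simp] theorem sgn_sgn (x : Kr R) : sgn (sgn x) = x :=
  DFunLike.congr_fun (kr_ext (f := sgn.comp sgn) (g := RingHom.id _) fun a => by simp) x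

theorem sgn_of_mem {m : ℕ} {x : Kr R} (hx : x ∈ K R m) : sgn x = (-1 : ℤ) ^ m • x := by
  induction m generalizing x with
  | zero =>
    obtain ⟨n, rfl⟩ := mem_K_zero.1 hx
    rw [map_intCast, pow_zero, one_smul]
  | succ m ih =>
    refine K_ind (P := fun x => sgn x = (-1 : ℤ) ^ (m + 1) • x) ?_ (by simp) ?_ ?_ hx
    · intro u y hy
      rw [map_mul, sgn_sym, ih hy, mul_smul_comm, pow_succ, mul_smul, kneg_mul, neg_one_smul]
    · intro x y hx hy
      rw [map_add, smul_add, hx, hy]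
    · intro x hx
      rw [map_neg, smul_neg, hx]

theorem sgn_mem {m : ℕ} {x : Kr R} (hx : x ∈ K R m) : sgn x ∈ K R m := by
  rw [sgn_of_mem hx]
  exact zsmul_mem hx _

theorem kmap_sgn (φ : R →+* S) (x : Kr R) : kmap φ (sgn x) = sgn (kmap φ x) :=
  DFunLike.congr_fun (kr_ext (f := (kmap φ).comp sgn) (g := sgn.comp (kmap φ)) fun a => by
    simp [kmap_sym]) x

theorem pick_spec {i : ℕ} {P : (Kr R →+ Kr S) → Prop}
    (h : ∃ N, P N ∧ ∀ m, ∀ x ∈ K R (m + i), N x ∈ K S m) : P (pick i P) := by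
  unfold pick
  rw [dif_pos h]
  exact h.choose_spec.1

theorem pick_mem {i m : ℕ} (P : (Kr R →+ Kr S) → Prop) {x : Kr R} (hx : x ∈ K R (m + i)) :
    pick i P x ∈ K S m := by
  unfold pick
  split_ifs with h
  · exact h.choose_spec.2 m x hx
  · exact zero_mem _

theorem exists_unit_lift [IsLocalRing R] [IsLocalRing S] {φ : R →+* S}
    (hφ : Function.Surjective φ) (s : Sˣ) : ∃ u : Rˣ, Units.map φ.toMonoidHom u = s := by
  have := IsLocalHom.of_surjective φ hφ
  obtain ⟨r, hr⟩ := hφ s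
  obtain ⟨u, rfl⟩ := IsLocalHom.map_nonunit (f := φ) r (hr ▸ s.isUnit)
  exact ⟨u, Units.ext hr⟩

theorem kmap_surj [IsLocalRing R] [IsLocalRing S] {φ : R →+* S} (hφ : Function.Surjective φ)
    {m : ℕ} {y : Kr S} (hy : y ∈ K S m) : ∃ x ∈ K R m, kmap φ x = y := by
  induction m generalizing y with
  | zero =>
    obtain ⟨n, rfl⟩ := mem_K_zero.1 hy
    exact ⟨n, mem_K_zero.2 ⟨n, rfl⟩, map_intCast _ n⟩
  | succ m ih =>
    refine K_ind (P := fun y => ∃ x ∈ K R (m + 1), kmap φ x = y) ?_ ⟨0, zero_mem _, map_zero _⟩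
      ?_ ?_ hy
    · intro s y hy
      obtain ⟨u, rfl⟩ := exists_unit_lift hφ s
      obtain ⟨x, hx, rfl⟩ := ih hy
      exact ⟨sym u * x, sym_mul_mem_K u hx, by rw [map_mul, kmap_sym]⟩
    · rintro _ _ ⟨x, hx, rfl⟩ ⟨y, hy, rfl⟩
      exact ⟨x + y, add_mem hx hy, map_add _ _ _⟩
    · rintro _ ⟨x, hx, rfl⟩
      exact ⟨-x, neg_mem hx, map_neg _ _⟩

theorem kmap_surjective [IsLocalRing R] [IsLocalRing S] {φ : R →+* S}
    (hφ : Function.Surjective φ) : Function.Surjective (kmap φ) := fun y =>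
  hom_ind (P := fun y => ∃ x, kmap φ x = y)
    (fun _ _ hy => (kmap_surj hφ hy).imp fun _ h => h.2)
    (by rintro _ _ ⟨x, rfl⟩ ⟨y, rfl⟩; exact ⟨x + y, map_add _ _ _⟩) y

end ring

section field

variable {E L k : Type} [Field E] [Field L] [Field k]

theorem sym_neg_self (a : Eˣ) : sym a * sym (-a) = 0 := by
  by_cases h1 : a = 1
  · simp [h1]
  have h0 : (a : E) ≠ 1 := fun h => h1 (Units.ext h)
  have h2 : 1 - (a : E) ≠ 0 := sub_ne_zero.2 h0.symm
  have h3 : 1 - (a : E)⁻¹ ≠ 0 := sub_ne_zero.2 (by simpa [eq_comm] using h0)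
  have e : -a = Units.mk0 _ h2 / Units.mk0 _ h3 := by
    ext
    have := a.ne_zero
    simp only [Units.val_neg, Units.val_div_eq_div_val, Units.val_mk0]
    field_simp
    ring
  have s1 : sym a * sym (Units.mk0 _ h2) = 0 := sym_st (by simp)
  have s2 : sym a⁻¹ * sym (Units.mk0 _ h3) = 0 := sym_st (by simp)
  rw [sym_inv, kneg_mul, neg_eq_zero] at s2
  rw [e, sym_div, mul_sub, s1, s2, sub_zero]

theorem sym_neg {R : Type} [CommRing R] (a : Rˣ) : sym (-a) = sym (-1 : Rˣ) + sym a := by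
  rw [← sym_mul, neg_one_mul]

theorem two_eps {R : Type} [CommRing R] : sym (-1 : Rˣ) + sym (-1 : Rˣ) = 0 := by
  rw [← sym_mul]; simp

theorem neg_eps {R : Type} [CommRing R] : -sym (-1 : Rˣ) = sym (-1 : Rˣ) :=
  neg_eq_of_add_eq_zero_right two_eps

theorem sym_anti (a b : Eˣ) : sym a * sym b = -(sym b * sym a) := by
  have h := sym_neg_self (a * b)
  have e1 : sym (-(a * b)) = sym (-a) + sym b := by rw [← sym_mul, neg_mul]
  have e2 : sym (-(a * b)) = sym a + sym (-b) := by rw [← sym_mul, mul_neg]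
  rw [sym_mul, add_mul] at h
  nth_rewrite 1 [e1] at h
  rw [e2, mul_add, mul_add, sym_neg_self, sym_neg_self, zero_add, add_zero] at h
  exact eq_neg_of_add_eq_zero_left h

theorem sym_self (a : Eˣ) : sym a * sym a = sym a * sym (-1 : Eˣ) := by
  have h := sym_neg_self a
  rw [sym_neg, mul_add] at h
  rw [eq_neg_of_add_eq_zero_right h, ← kmul_neg, neg_eps]

theorem sym_comm (a : Eˣ) (x : Kr E) : sym a * x = sgn x * sym a := by
  induction x using kr_ind with
  | h1 => simp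
  | hmul b x hx =>
    rw [← mul_assoc, sym_anti, map_mul, sgn_sym, kneg_mul, mul_assoc, hx, kneg_mul, kneg_mul,
      mul_assoc]
  | hadd x y hx hy => rw [mul_add, hx, hy, map_add, add_mul]
  | hneg x hx => rw [kmul_neg, hx, map_neg, kneg_mul]

theorem comm_sym (a : Eˣ) (x : Kr E) : x * sym a = sym a * sgn x := by rw [sym_comm, sgn_sgn]

theorem tame_mem (V : ValuationSubring E) (ρ : V →+* k) {m : ℕ} {x : Kr E}
    (hx : x ∈ K E (m + 1)) : tame V ρ x ∈ K k m := pick_mem _ hx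

theorem N1_mem (φ : L →+* E) (a : E) {m : ℕ} {x : Kr E} (hx : x ∈ K E m) : N1 φ a x ∈ K L m :=
  pick_mem (i := 0) _ hx

theorem nrmL_mem (l : List E) (M : Subfield E) {m : ℕ} {x : Kr E} (hx : x ∈ K E m) :
    nrmL l M x ∈ K M m := by
  induction l generalizing M with
  | nil => exact N1_mem _ _ hx
  | cons a l ih => exact N1_mem _ _ (ih _)

theorem nrm_mem (φ : L →+* E) {m : ℕ} {x : Kr E} (hx : x ∈ K E m) : nrm φ x ∈ K L m := by
  unfold nrm
  split_ifs
  · exact N1_mem _ _ hx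
  · exact kmap_mem _ (nrmL_mem _ _ hx)

/-- The additive span of the products `{a} y` with `a` in a set is a two-sided ideal. -/
def symIdeal (s : Set Eˣ) : Ideal (Kr E) where
  carrier := AddSubgroup.closure {x | ∃ a ∈ s, ∃ y, x = sym a * y}
  add_mem' := add_mem
  zero_mem' := zero_mem _
  smul_mem' c x hx := by
    induction hx using AddSubgroup.closure_induction with
    | mem x hx =>
      obtain ⟨a, ha, y, rfl⟩ := hx
      exact AddSubgroup.subset_closure ⟨a, ha, sgn c * y, by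
        rw [smul_eq_mul, ← mul_assoc, comm_sym, mul_assoc]⟩
    | zero => simp
    | add x y _ _ hx hy => rw [smul_add]; exact add_mem hx hy
    | neg x _ hx => rw [smul_neg]; exact neg_mem hx

theorem mem_symIdeal {s : Set Eˣ} {x : Kr E} :
    x ∈ symIdeal s ↔ x ∈ AddSubgroup.closure {x | ∃ a ∈ s, ∃ y, x = sym a * y} := Iff.rfl

theorem sym_mul_mem_symIdeal {s : Set Eˣ} {a : Eˣ} (ha : a ∈ s) (y : Kr E) :
    sym a * y ∈ symIdeal s := AddSubgroup.subset_closure ⟨a, ha, y, rfl⟩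

theorem sym_mem_symIdeal {s : Set Eˣ} {a : Eˣ} (ha : a ∈ s) : sym a ∈ symIdeal s := by
  simpa using sym_mul_mem_symIdeal ha 1

instance (s : Set Eˣ) : (symIdeal s).IsTwoSided where
  mul_mem_of_left c hx := by
    rw [mem_symIdeal] at hx
    induction hx using AddSubgroup.closure_induction with
    | mem x hx =>
      obtain ⟨a, ha, y, rfl⟩ := hx
      rw [mul_assoc]
      exact sym_mul_mem_symIdeal ha _
    | zero => simp
    | add x y _ _ hx hy => rw [add_mul]; exact add_mem hx hy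
    | neg x _ hx => rw [kneg_mul]; exact neg_mem hx

theorem kq {R S : Type} [CommRing R] [CommRing S] [IsLocalRing R] [IsLocalRing S] {φ : R →+* S}
    (hφ : Function.Surjective φ) (g : R →+* E) {x : Kr R} (hx : kmap φ x = 0) :
    kmap g x ∈ AddSubgroup.closure
      {z | ∃ u : Rˣ, φ u = 1 ∧ ∃ y, z = sym (Units.map g.toMonoidHom u) * y} := by
  have := IsLocalHom.of_surjective φ hφ
  let I := symIdeal {a : Eˣ | ∃ u : Rˣ, φ u = 1 ∧ a = Units.map g.toMonoidHom u}
  choose t ht using exists_unit_lift hφ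
  have key : ∀ u u' : Rˣ, φ u = φ u' → Ideal.Quotient.mk I (sym (Units.map g.toMonoidHom u))
      = Ideal.Quotient.mk I (sym (Units.map g.toMonoidHom u')) := fun u u' h => by
    rw [Ideal.Quotient.eq, ← sym_div, ← map_div]
    refine sym_mem_symIdeal ⟨u / u', ?_, rfl⟩
    rw [div_eq_mul_inv, Units.val_mul, map_mul, h, ← map_mul]
    simp
  have ht' : ∀ s, φ (t s) = s := fun s => congrArg Units.val (ht s)
  let ψ : Kr S →+* Kr E ⧸ I := klift
    (fun s => Ideal.Quotient.mk I (sym (Units.map g.toMonoidHom (t s))))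
    (fun a b => by
      rw [← map_add, ← sym_mul, ← map_mul]
      exact key _ _ (by simp [ht']))
    (fun a b h => by
      obtain ⟨w, hw⟩ := IsLocalHom.map_nonunit (f := φ) (1 - (t a : R)) (by
        rw [map_sub, map_one, ht', ← h, add_sub_cancel_left]; exact b.isUnit)
      rw [key (t b) w (by rw [hw, map_sub, map_one, ht', ht', ← h, add_sub_cancel_left]),
        ← map_mul, sym_st, map_zero]
      change g (t a) + g w = 1
      rw [hw, ← map_add, add_sub_cancel, map_one])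
  have e : ψ.comp (kmap φ) = (Ideal.Quotient.mk I).comp (kmap g) := kr_ext fun u => by
    rw [RingHom.comp_apply, RingHom.comp_apply, kmap_sym, kmap_sym, klift_sym]
    exact key _ _ (ht' _)
  have h0 : Ideal.Quotient.mk I (kmap g x) = 0 := by
    have := DFunLike.congr_fun e x
    rw [RingHom.comp_apply, hx, map_zero] at this
    exact this.symm
  refine AddSubgroup.closure_mono ?_ (mem_symIdeal.1 (Ideal.Quotient.eq_zero_iff_mem.1 h0))
  rintro _ ⟨_, ⟨u, hu, rfl⟩, y, rfl⟩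
  exact ⟨u, hu, y, rfl⟩

end field

end

end Pool.Agent.KEW

end MrgPart1

-- ======== part 2: formerly Pool.Agent.MP_55d974_ag.coh.Sky
section MrgPart2

/-! PROJECT KEW, section 4: sheaves of finite chains and vanishing above the dimension of the
support. -/

open CategoryTheory TopologicalSpace Opposite Limits

namespace Pool.Agent.KEW.Coh

variable {X : TopCat.{0}} {T : X → Type} [∀ x, AddCommGroup (T x)]

open Classical in
/-- The part of a chain that lives on `S`. -/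
noncomputable def cut (S : Set X) : (Π₀ x, T x) →+ Π₀ x, T x :=
  DFinsupp.filterAddMonoidHom T fun w => w ∈ S

theorem cut_pos {S : Set X} {w : X} (h : w ∈ S) (b : Π₀ x, T x) : cut S b w = b w := by
  classical
  exact DFinsupp.filter_apply_pos b h

theorem cut_neg {S : Set X} {w : X} (h : w ∉ S) (b : Π₀ x, T x) : cut S b w = 0 := by
  classical
  exact DFinsupp.filter_apply_neg b h

theorem germ_pos {z w : X} (h : w ⤳ z) (b : Π₀ x, T x) : germ z b w = b w :=
  cut_pos (S := {w | w ⤳ z}) h b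

theorem germ_neg {z w : X} (h : ¬w ⤳ z) (b : Π₀ x, T x) : germ z b w = 0 :=
  cut_neg (S := {w | w ⤳ z}) h b

theorem germ_congr {z : X} {b c : Π₀ x, T x} (h : ∀ w, w ⤳ z → b w = c w) :
    germ z b = germ z c := by
  ext w
  by_cases hw : w ⤳ z
  · rw [germ_pos hw, germ_pos hw, h w hw]
  · rw [germ_neg hw, germ_neg hw]

theorem fin_supp (b : Π₀ x, T x) : {x | b x ≠ 0}.Finite := b.finite_support

theorem exists_chain (f : ∀ x, T x) (h : {x | f x ≠ 0}.Finite) : ∃ b : Π₀ x, T x, ∀ x, b x = f x :=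
  ⟨⟨f, Trunc.mk ⟨h.toFinset.val, fun x => (em (f x = 0)).symm.imp_left fun hx =>
    h.mem_toFinset.2 hx⟩⟩, fun _ => rfl⟩

/-- An open neighbourhood that avoids finitely many points that do not specialise to `z`. -/
theorem exists_nbhd {B : Set X} (hB : B.Finite) {z : X} (h : ∀ b ∈ B, ¬b ⤳ z) {U : Opens X}
    (hz : z ∈ U) : ∃ V, z ∈ V ∧ V ≤ U ∧ ∀ b ∈ B, b ∉ V :=
  ⟨U ⊓ ⟨(⋃ b ∈ B, closure {b})ᶜ, (hB.isClosed_biUnion fun _ _ => isClosed_closure).isOpen_compl⟩,
    ⟨hz, fun hm => by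
      obtain ⟨b, hb, hm⟩ := Set.mem_iUnion₂.1 hm
      exact h b hb (specializes_iff_mem_closure.2 hm)⟩, inf_le_left,
    fun b hb hV => hV.2 (Set.mem_biUnion hb (subset_closure rfl))⟩

/-- Two chains with the same germ agree near the point. -/
theorem exists_nbhd_eq {z : X} {b c : Π₀ x, T x} (h : ∀ w, w ⤳ z → b w = c w) {U : Opens X}
    (hz : z ∈ U) : ∃ V, z ∈ V ∧ V ≤ U ∧ ∀ w ∈ V, b w = c w := by
  obtain ⟨V, h1, h2, h3⟩ := exists_nbhd (fin_supp (b - c))
    (fun w hw hs => hw (by rw [DFinsupp.sub_apply, h w hs, sub_self])) hz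
  exact ⟨V, h1, h2, fun w hw => sub_eq_zero.1 (by_contra fun hne => h3 w hne hw)⟩

variable (T) in
/-- A condition on the germs of chains. -/
structure LP where
  /-- The allowed chains at a point. -/
  P : X → AddSubgroup (Π₀ x, T x)
  loc : ∀ z (b : Π₀ x, T x), (∀ w, w ⤳ z → b w = 0) → b ∈ P z

theorem LP.congr (L : LP T) {z : X} {b c : Π₀ x, T x} (h : ∀ w, w ⤳ z → b w = c w)
    (hc : c ∈ L.P z) : b ∈ L.P z := by
  rw [← sub_add_cancel b c]
  exact add_mem (L.loc z _ fun w hw => by rw [DFinsupp.sub_apply, h w hw, sub_self]) hc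

/-- The chains on `U` that satisfy the condition. -/
def LP.sec (L : LP T) (U : Opens X) : AddSubgroup (Π₀ x, T x) where
  carrier := {b | (∀ w ∉ U, b w = 0) ∧ ∀ z ∈ U, b ∈ L.P z}
  zero_mem' := ⟨fun _ _ => rfl, fun _ _ => zero_mem _⟩
  add_mem' := fun h h' => ⟨fun w hw => by rw [DFinsupp.add_apply, h.1 w hw, h'.1 w hw, add_zero],
    fun z hz => add_mem (h.2 z hz) (h'.2 z hz)⟩
  neg_mem' := fun h => ⟨fun w hw => by rw [DFinsupp.neg_apply, h.1 w hw, neg_zero],
    fun z hz => neg_mem (h.2 z hz)⟩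

theorem LP.cut_mem (L : LP T) {U : Opens X} {b : Π₀ x, T x} (h : ∀ z ∈ U, b ∈ L.P z) :
    cut U b ∈ L.sec U :=
  ⟨fun _ hw => cut_neg hw b, fun z hz =>
    L.congr (fun _ hw => cut_pos (hw.mem_open U.2 hz) b) (h z hz)⟩

theorem LP.ext' {L : LP T} {U : Opens X} {s t : L.sec U} (h : ∀ w ∈ U, s.1 w = t.1 w) : s = t := by
  ext w
  by_cases hw : w ∈ U
  · exact h w hw
  · rw [s.2.1 w hw, t.2.1 w hw]

variable [NoetherianSpace X]

/-- The sheaf of chains that satisfy the condition. -/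
noncomputable def LP.sh (L : LP T) : Sh X :=
  ⟨{ obj := fun U => AddCommGrpCat.of (L.sec U.unop)
     map := fun {U V} i => AddCommGrpCat.ofHom (((cut V.unop).comp (L.sec U.unop).subtype).codRestrict
      _ fun b => L.cut_mem fun z hz => b.2.2 z (i.unop.le hz))
     map_id := fun U => AddCommGrpCat.hom_ext (AddMonoidHom.ext fun b =>
      LP.ext' fun _ hw => cut_pos hw _)
     map_comp := fun i j => AddCommGrpCat.hom_ext (AddMonoidHom.ext fun b => LP.ext' fun _ hw =>
      (cut_pos hw _).trans ((cut_pos hw _).trans (cut_pos (j.unop.le hw) _)).symm) }, by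
    refine (TopCat.Presheaf.isSheaf_iff_isSheafUniqueGluing (X := X) _).2 fun ι U sf h => ?_
    classical
    have hc : ∀ i j, ∀ w ∈ U i, w ∈ U j → (sf i).1 w = (sf j).1 w := fun i j w hi hj =>
      have hw : w ∈ ((U i ⊓ U j : Opens X) : Set X) := And.intro hi hj
      (cut_pos hw _).symm.trans
        ((congrArg (fun s : L.sec (U i ⊓ U j) => s.1 w) (h i j)).trans (cut_pos hw _))
    let f : ∀ w, T w := fun w => if h : ∃ i, w ∈ U i then (sf h.choose).1 w else 0
    have hf : ∀ i, ∀ w ∈ U i, f w = (sf i).1 w := fun i w hw =>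
      (dif_pos ⟨i, hw⟩).trans (hc _ _ w (Exists.choose_spec (⟨i, hw⟩ : ∃ i, w ∈ U i)) hw)
    obtain ⟨t, ht⟩ := (NoetherianSpace.isCompact (⋃ i, (U i : Set X))).elim_finite_subcover
      (fun i => (U i : Set X)) (fun i => (U i).2) subset_rfl
    obtain ⟨b, hb⟩ := exists_chain f ((t.finite_toSet.biUnion fun i _ => fin_supp (sf i).1).subset
      fun w hw => by
        obtain ⟨i, hi, hw'⟩ := Set.mem_iUnion₂.1
          (ht (Set.mem_iUnion.2 (by_contra fun h => hw (dif_neg h))))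
        exact Set.mem_biUnion hi fun e => hw ((hf i w hw').trans e))
    refine ⟨⟨b, fun w hw => (hb w).trans (dif_neg fun h => hw (Opens.mem_iSup.2 h)), fun z hz => ?_⟩,
      fun i => LP.ext' fun w hw => (cut_pos hw _).trans ((hb w).trans (hf i w hw)),
      fun s hs => LP.ext' fun w hw => ?_⟩
    · obtain ⟨i, hi⟩ := Opens.mem_iSup.1 hz
      exact L.congr (fun w hw => (hb w).trans (hf i w (hw.mem_open (U i).2 hi))) ((sf i).2.2 z hi)
    · obtain ⟨i, hi⟩ := Opens.mem_iSup.1 hw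
      exact ((cut_pos hi _).symm.trans (congrArg (fun s : L.sec (U i) => s.1 w) (hs i))).trans
        ((hb w).trans (hf i w hi)).symm⟩

/-- The chain of a section. -/
def LP.val (L : LP T) (U : Opens X) : L.sh.obj.obj (op U) →+ Π₀ x, T x := (L.sec U).subtype

/-- The section given by a chain. -/
noncomputable def LP.mk' (L : LP T) {U : Opens X} (b : Π₀ x, T x) (h : ∀ z ∈ U, b ∈ L.P z) :
    L.sh.obj.obj (op U) := (⟨_, L.cut_mem h⟩ : L.sec U)

theorem LP.val_mk (L : LP T) {U : Opens X} (b : Π₀ x, T x) (h : ∀ z ∈ U, b ∈ L.P z) {w : X}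
    (hw : w ∈ U) : L.val U (L.mk' b h) w = b w := cut_pos hw b

theorem LP.val_off (L : LP T) {U : Opens X} (s) {w : X} (hw : w ∉ U) : L.val U s w = 0 :=
  s.2.1 w hw

theorem LP.val_mem (L : LP T) {U : Opens X} (s) {z : X} (hz : z ∈ U) : L.val U s ∈ L.P z :=
  s.2.2 z hz

theorem LP.val_rs (L : LP T) {U V : Opens X} (h : V ≤ U) (s) {w : X} (hw : w ∈ V) :
    L.val V (rs L.sh h s) w = L.val U s w := cut_pos hw _

theorem LP.ext {L : LP T} {U : Opens X} {s t : L.sh.obj.obj (op U)}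
    (h : ∀ w ∈ U, L.val U s w = L.val U t w) : s = t := LP.ext' h

theorem LP.ext0 {L : LP T} {U : Opens X} {s : L.sh.obj.obj (op U)}
    (h : ∀ w ∈ U, L.val U s w = 0) : s = 0 := LP.ext' h

/-- Morphisms into a sheaf of chains. -/
theorem LP.exists_hom (L : LP T) (F : Sh X) (g : ∀ U : Opens X, F.obj.obj (op U) → ∀ x, T x)
    (add : ∀ U s t, ∀ x ∈ U, g U (s + t) x = g U s x + g U t x)
    (mem : ∀ U s, ∃ b : Π₀ x, T x, (∀ x ∈ U, b x = g U s x) ∧ ∀ z ∈ U, b ∈ L.P z)
    (nat : ∀ U V (h : V ≤ U) s, ∀ x ∈ V, g V (rs F h s) x = g U s x) :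
    ∃ φ : F ⟶ L.sh, ∀ U s, ∀ x ∈ U, L.val U (ap φ U s) x = g U s x := by
  choose b hb hm using mem
  have e : ∀ U s, ∀ x ∈ U, L.val U (L.mk' (b U s) (hm U s)) x = g U s x := fun U s x hx =>
    (L.val_mk _ _ hx).trans (hb U s x hx)
  exact ⟨⟨{ app := fun U => AddCommGrpCat.ofHom (AddMonoidHom.mk' (fun s => L.mk' _ (hm U.unop s))
              fun s t => LP.ext fun x hx => ((e _ _ x hx).trans (add _ _ _ x hx)).trans
                (congrArg₂ (· + ·) (e _ _ x hx) (e _ _ x hx)).symm)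
            naturality := fun U V i => AddCommGrpCat.hom_ext (AddMonoidHom.ext fun s =>
              LP.ext fun x hx => ((e _ _ x hx).trans (nat _ _ i.unop.le s x hx)).trans
                ((L.val_rs i.unop.le _ hx).trans (e _ _ x (i.unop.le hx))).symm) }⟩, e⟩

/-- Morphisms given by a local operator on chains. -/
theorem LP.exists_map {T' : X → Type} [∀ x, AddCommGroup (T' x)] (L : LP T) (L' : LP T')
    (D : (Π₀ x, T x) →+ Π₀ x, T' x) (loc : ∀ (b : Π₀ x, T x) z, (∀ w, w ⤳ z → b w = 0) → D b z = 0)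
    (mem : ∀ U s, ∀ z ∈ U, D (L.val U s) ∈ L'.P z) :
    ∃ φ : L.sh ⟶ L'.sh, ∀ U s, ∀ x ∈ U, L'.val U (ap φ U s) x = D (L.val U s) x :=
  L'.exists_hom _ (fun U s x => D (L.val U s) x) (fun U s t x _ => by simp only [map_add]; rfl)
    (fun U s => ⟨_, fun _ _ => rfl, mem U s⟩) fun U V h s x hx => sub_eq_zero.1 <| by
      rw [← DFinsupp.sub_apply, ← map_sub]
      exact loc _ x fun w hw => by
        rw [DFinsupp.sub_apply, L.val_rs h s (hw.mem_open V.2 hx), sub_self]

theorem LP.exists_incl (L L' : LP T) (mem : ∀ z, L.P z ≤ L'.P z) :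
    ∃ φ : L.sh ⟶ L'.sh, ∀ U s, L'.val U (ap φ U s) = L.val U s := by
  obtain ⟨φ, h⟩ := L.exists_map L' (AddMonoidHom.id _) (fun b z h => h z specializes_rfl)
    fun U s z hz => mem z (L.val_mem s hz)
  refine ⟨φ, fun U s => DFinsupp.ext fun x => ?_⟩
  by_cases hx : x ∈ U
  · exact h U s x hx
  · rw [L.val_off _ hx, L'.val_off _ hx]

/-- A pointwise condition. -/
def ptw (B : ∀ x, AddSubgroup (T x)) : LP T where
  P z := (B z).comap (DFinsupp.evalAddMonoidHom z)
  loc z b h := by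
    change b z ∈ B z
    rw [h z specializes_rfl]
    exact zero_mem _

theorem acy_ptw (B : ∀ x, AddSubgroup (T x)) : Acy (ptw B).sh := by
  refine acy_of_flasque _ (flasque_of fun U V le t => ⟨(ptw B).mk' ((ptw B).val V t) fun z _ => ?_,
    LP.ext fun w hw => ((ptw B).val_rs le _ hw).trans ((ptw B).val_mk _ _ (le hw))⟩)
  by_cases hz : z ∈ V
  · exact (ptw B).val_mem t hz
  · change (ptw B).val V t z ∈ B z
    rw [(ptw B).val_off t hz]
    exact zero_mem _

variable [QuasiSober X] {Y : Set X} {rk : X → ℕ}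

theorem fin_top (lt : ∀ y ∈ Y, ∀ z, y ⤳ z → y ≠ z → rk z < rk y) {Z : Set X} (hZ : IsClosed Z)
    (U : Opens X) {j m : ℕ} (h : ∀ g ∈ Z, g ∈ U → g ∈ Y ∧ rk g + j ≤ m) :
    {y | y ∈ Z ∧ y ∈ U ∧ rk y + j = m}.Finite := by
  obtain ⟨S, h1, h2, h3, rfl⟩ := NoetherianSpace.exists_finite_set_isClosed_irreducible hZ
  refine (h1.dependent_image fun t ht => (h3 t ht).genericPoint).subset ?_
  rintro y ⟨⟨t, ht, hy⟩, hU, e⟩
  have hg := (h3 t ht).isGenericPoint_genericPoint (h2 t ht)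
  have hs := hg.specializes hy
  obtain ⟨a, b⟩ := h _ ⟨t, ht, hg.mem⟩ (hs.mem_open U.2 hU)
  refine ⟨t, ht, by_contra fun hne => ?_⟩
  have := lt _ a y hs hne
  omega

/-- `z` is outside `Y` or has rank at least `m`. -/
def Big (Y : Set X) (rk : X → ℕ) (m : ℕ) (z : X) : Prop := z ∈ Y → m ≤ rk z

/-- Vanishing above the rank of the support. -/
def VV (Y : Set X) (rk : X → ℕ) (m : ℕ) : Prop :=
  ∀ F : Sh X, (∀ z, Big Y rk m z → Van F z) → ∀ i ≥ m, ∀ x : Hc F i, x = 0

omit [NoetherianSpace X] [QuasiSober X] in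
theorem inj_aux {a b k : ℕ} (Va : VV Y rk a) (Vb : VV Y rk b) (ha : a ≤ k + 1) (hb : b ≤ k)
    {A B : Sh X} (φ : A ⟶ B) (h1 : ∀ z, Big Y rk a z → LInj φ z)
    (h2 : ∀ z, Big Y rk b z → LSur φ z) (x : Hc A (k + 1)) (h : hm φ _ x = 0) : x = 0 := by
  obtain ⟨K, I, C, i, e, m, p, w₁, w₂, S₁, S₂, rfl⟩ := factor φ
  obtain ⟨y, hy⟩ := ex1 S₂ (hm e _ x) ((map_map rfl x).trans h)
  rw [Vb C (fun z hz => van_coker S₂ e (h2 z hz)) k hb y, map_zero] at hy
  obtain ⟨u, rfl⟩ := ex2 S₁ x hy.symm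
  rw [Va K (fun z hz => van_ker S₁ m (h1 z hz)) _ ha u, map_zero]

omit [QuasiSober X] in
theorem LP.lsur (L : LP T) {F : Sh X} (φ : F ⟶ L.sh) {z : X} (h : ∀ U, z ∈ U → ∀ t,
    ∃ V, z ∈ V ∧ ∃ s, ∀ w, w ⤳ z → L.val V (ap φ V s) w = L.val U t w) : LSur φ z := by
  intro U hz t
  obtain ⟨V, hV, s, e⟩ := h U hz t
  obtain ⟨W, hW, le, e'⟩ := exists_nbhd_eq e (U := U ⊓ V) ⟨hz, hV⟩
  exact ⟨W, hW, le.trans inf_le_left, rs F (le.trans inf_le_right) s, LP.ext fun w hw => by
    rw [ap_rs, L.val_rs _ _ hw, L.val_rs _ _ hw, e' w hw]⟩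

theorem vv (hY : IsClosed Y) (lt : ∀ y ∈ Y, ∀ z, y ⤳ z → y ≠ z → rk z < rk y) (m : ℕ) :
    VV Y rk m := by
  induction m with
  | zero =>
    refine fun F h i _ => eq_zero_of_isZero ((IsZero.iff_id_eq_zero F).2 (hom_ext fun U s => ?_))
    rw [eq_zero_of_loc F s fun z hz => h z (fun _ => Nat.zero_le _) U hz s, map_zero, map_zero]
  | succ m ih =>
    intro F h i hi x
    classical
    obtain ⟨k, rfl⟩ : ∃ k, i = k + 1 := ⟨i - 1, by omega⟩
    let L := ptw (T := fun x => (TopCat.Presheaf.stalk (X := X) F.obj x : AddCommGrpCat.{0}))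
      fun x => ⨅ _ : ¬(x ∈ Y ∧ rk x = m), ⊥
    have hL : ∀ b z, b ∈ L.P z ↔ (¬(z ∈ Y ∧ rk z = m) → b z = 0) := fun b z =>
      AddSubgroup.mem_iInf
    obtain ⟨φ, hφ⟩ := L.exists_hom F (fun U s x => if h : x ∈ U ∧ x ∈ Y ∧ rk x = m then
        (TopCat.Presheaf.germ (X := X) F.obj U x h.1).hom s else 0)
      (fun U s t x _ => by split_ifs <;> simp) (fun U s => by
        have ho : IsOpen {z | ∃ V, z ∈ V ∧ ∃ h : V ≤ U, rs F h s = 0} :=
          isOpen_iff_forall_mem_open.2 fun z ⟨V, hV, e⟩ => ⟨V, fun w hw => ⟨V, hw, e⟩, V.2, hV⟩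
        obtain ⟨b, hb⟩ := exists_chain (fun x => if h : x ∈ U ∧ x ∈ Y ∧ rk x = m then
          (TopCat.Presheaf.germ (X := X) F.obj U x h.1).hom s else 0)
          ((fin_top lt ho.isClosed_compl U (j := 0) (m := m) fun g hg hU => by
            by_contra hn
            exact hg (h g (fun hy => by have := mt (And.intro hy) hn; omega) U hU s)).subset
          fun y hy => by
            have h1 : y ∈ U ∧ y ∈ Y ∧ rk y = m := by_contra fun h1 => hy (dif_neg h1)
            refine ⟨fun ⟨V, hV, le, e⟩ => hy ((dif_pos h1).trans ?_), h1.1, h1.2.2⟩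
            exact (TopCat.Presheaf.germ_res_apply (X := X) F.obj (homOfLE le) y hV s).symm.trans
              ((congrArg _ e).trans (map_zero _)))
        exact ⟨b, fun x _ => hb x, fun z _ => (hL b z).2 fun hn =>
          (hb z).trans (dif_neg fun h => hn h.2)⟩)
      (fun U V le s x hx => by
        by_cases h1 : x ∈ Y ∧ rk x = m
        · rw [dif_pos ⟨hx, h1⟩, dif_pos ⟨le hx, h1⟩]
          exact TopCat.Presheaf.germ_res_apply (X := X) F.obj (homOfLE le) x hx s
        · rw [dif_neg fun h => h1 h.2, dif_neg fun h => h1 h.2])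
    have key : ∀ z, Big Y rk m z → ∀ w, w ⤳ z → w ≠ z → ∀ U t, L.val U t w = 0 := by
      intro z hz w hw hne U t
      by_cases hU : w ∈ U
      · refine (hL _ w).1 (L.val_mem t hU) fun ⟨a, b⟩ => ?_
        have := lt w a z hw hne
        have := hz (hw.mem_closed hY a)
        omega
      · exact L.val_off t hU
    refine inj_aux ih ih (by omega) (by omega) φ (fun z hz U hU s e => ?_)
      (fun z hz => L.lsur φ fun U hU t => ?_) x (acy_ptw _ _ _)
    · by_cases h1 : z ∈ Y ∧ rk z = m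
      · have := hφ U s z hU
        rw [e, dif_pos ⟨hU, h1⟩, map_zero, DFinsupp.zero_apply] at this
        obtain ⟨W, hW, i1, i2, e'⟩ := TopCat.Presheaf.germ_eq (X := X) F.obj z hU hU s 0
          (this.symm.trans (map_zero _).symm)
        exact ⟨W, hW, i1.le, e'.trans (map_zero _)⟩
      · exact h z (fun hy => by have := hz hy; have := mt (And.intro hy) h1; omega) U hU s
    · by_cases h1 : z ∈ Y ∧ rk z = m
      · obtain ⟨V, hV, s, e⟩ := TopCat.Presheaf.exists_germ_eq (X := X) F.obj (L.val U t z)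
        refine ⟨V, hV, s, fun w hw => ?_⟩
        by_cases hne : w = z
        · subst hne
          rw [hφ V s w hV, dif_pos ⟨hV, h1⟩]
          exact e
        · rw [key z hz w hw hne, key z hz w hw hne]
      · refine ⟨U, hU, 0, fun w hw => ?_⟩
        rw [map_zero, map_zero, DFinsupp.zero_apply]
        by_cases hne : w = z
        · subst hne
          exact ((hL _ w).1 (L.val_mem t hU) h1).symm
        · rw [key z hz w hw hne]

omit [NoetherianSpace X] [QuasiSober X] in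
theorem sur_of (V : ∀ m, VV Y rk m) {m : ℕ} {A B : Sh X} (φ : A ⟶ B)
    (h1 : ∀ z, Big Y rk (m + 1) z → LInj φ z) (h2 : ∀ z, Big Y rk m z → LSur φ z) (y : Hc B m) :
    ∃ x, hm φ m x = y := by
  obtain ⟨K, I, C, i, e, n, p, w₁, w₂, S₁, S₂, rfl⟩ := factor φ
  obtain ⟨u, rfl⟩ := ex2 S₂ y (V m C (fun z hz => van_coker S₂ e (h2 z hz)) m le_rfl _)
  obtain ⟨x, rfl⟩ := ex3 S₁ u (V _ K (fun z hz => van_ker S₁ n (h1 z hz)) _ le_rfl _)
  exact ⟨x, (map_map rfl x).symm⟩

omit [NoetherianSpace X] [QuasiSober X] in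
theorem inj_of (V : ∀ m, VV Y rk m) {m : ℕ} {A B : Sh X} (φ : A ⟶ B) [Mono φ]
    (h2 : ∀ z, Big Y rk (m - 1) z → LSur φ z) (x : Hc A m) (h : hm φ m x = 0) : x = 0 := by
  cases m with
  | zero => exact inj0 φ x h
  | succ m =>
    exact inj_aux (V _) (V m) le_rfl le_rfl φ
      (fun z _ => linj_of ((mono_iff φ).1 inferInstance) z) h2 x h

end Pool.Agent.KEW.Coh

end MrgPart2

-- ======== part 3: formerly Pool.Agent.MP_55d974_ag.coh.Alg
section MrgPart3

/-! PROJECT KEW, section 4: algebra of the horizontal complex. -/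

open CategoryTheory TopologicalSpace Opposite

namespace Pool.Agent.KEW.Coh

variable {X : TopCat.{0}} {T : X → Type} [∀ x, AddCommGroup (T x)]

theorem sum_single {M : Type} [AddCommGroup M] (S : AddSubgroup M) (ρ : ∀ y, M →+ T y) (Ω : Set X)
    (c : Π₀ x, T x) (h : ∀ y ∈ Ω, ∃ b ∈ S, ρ y b = c y ∧ ∀ y' ∈ Ω, y' ≠ y → ρ y' b = 0) :
    ∃ b ∈ S, ∀ y ∈ Ω, ρ y b = c y := by
  classical
  choose! b h1 h2 h3 using h
  refine ⟨∑ y ∈ (fin_supp c).toFinset with y ∈ Ω, b y,
    sum_mem fun y hy => h1 y (Finset.mem_filter.1 hy).2, fun y hy => ?_⟩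
  rw [map_sum, Finset.sum_eq_single y
    (fun y' hy' hne => h3 y' (Finset.mem_filter.1 hy').2 y hy hne.symm) fun hn => ?_, h2 y hy]
  rw [h2 y hy]
  exact by_contra fun h => hn (Finset.mem_filter.2 ⟨(fin_supp c).mem_toFinset.2 h, hy⟩)

variable {Y : Set X} {rk : X → ℕ} {d : ℕ} {A : ℕ → ∀ x, AddSubgroup (T x)}
  {D : (Π₀ x, T x) →+ Π₀ x, T x} {N₀ : X → AddSubgroup (Π₀ x, T x)}

theorem mem_hor {j : ℕ} {S : Set X} {b : Π₀ x, T x} : b ∈ Hor Y A D j S ↔
    b ∈ Deg (A j) ⊓ Off Y ∧ ∀ y ∈ Y, y ∈ S → D b y = 0 :=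
  and_congr_right' ⟨fun h y a b => h y ⟨a, b⟩, fun h y a => h y a.1 a.2⟩

theorem mem_neg {j : ℕ} {z : X} {c : Π₀ x, T x} : c ∈ Neg Y rk d A D N₀ (j + 1) z ↔
    ∃ b ∈ Hor Y A D j {y | y ⤳ z}, (∀ y ∈ Y, y ⤳ z → rk y + j = d →
      germ y b ∈ Neg Y rk d A D N₀ j y) ∧ germ z (D b) = c := by
  simp only [Neg, AddSubgroup.mem_map, AddSubgroup.mem_inf, AddSubgroup.mem_iInf,
    AddSubgroup.mem_comap, Set.mem_ofPred_eq, and_imp, and_assoc, AddMonoidHom.comp_apply]

namespace Cx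

variable (h : Cx Y rk d A D)
include h

theorem congr {b c : Π₀ x, T x} {z : X} (e : ∀ w, w ⤳ z → b w = c w) : D b z = D c z := by
  rw [← sub_eq_zero, ← DFinsupp.sub_apply, ← map_sub]
  exact h.loc _ z fun w hw => by rw [DFinsupp.sub_apply, e w hw, sub_self]

theorem d_top {b : Π₀ x, T x} (hb : b ∈ Deg (A d)) : D b = 0 :=
  DFinsupp.ext fun w => AddSubgroup.mem_bot.1 (h.top w ▸ h.deg d b hb w)

theorem move_all {j : ℕ} (hj : j ≤ d) {c : Π₀ x, T x} (hc : c ∈ Deg (A (j + 1))) :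
    ∃ b ∈ Deg (A j) ⊓ Off Y, ∀ y ∈ Y, D b y = c y := by
  rcases hj.eq_or_lt with rfl | hj
  · exact ⟨0, zero_mem _, fun y _ => by
      rw [map_zero]
      exact (AddSubgroup.mem_bot.1 (h.top y ▸ hc y)).symm⟩
  · exact sum_single _ (fun y => (DFinsupp.evalAddMonoidHom y).comp D) Y c
      fun y hy => h.move j hj y hy _ (hc y)

/-- Every chain is horizontal modulo boundaries. -/
theorem make_hor {j : ℕ} (hj : j ≤ d) {b : Π₀ x, T x} (hb : b ∈ Deg (A j)) :
    ∃ a, (a = 0 ∨ ∃ e, j = e + 1 ∧ a ∈ Deg (A e)) ∧ b - D a ∈ Deg (A j) ⊓ Off Y ∧ D (D a) = 0 := by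
  cases j with
  | zero =>
    exact ⟨0, Or.inl rfl, by
      rw [map_zero, sub_zero]
      exact ⟨hb, fun y hy => AddSubgroup.mem_bot.1 (h.bot y hy ▸ hb y)⟩, by rw [map_zero, map_zero]⟩
  | succ j =>
    obtain ⟨a, ha, e⟩ := h.move_all (by omega) hb
    exact ⟨a, Or.inr ⟨j, rfl, ha.1⟩, ⟨(Deg _).sub_mem hb (h.deg j a ha.1), fun y hy => by
      rw [DFinsupp.sub_apply, e y hy, sub_self]⟩, h.dd j a ha.1⟩

/-- The horizontal complex is exact on stalks. -/
theorem hor_ex {j : ℕ} (hj : j < d) {z : X} {c : Π₀ x, T x} (hc : c ∈ Deg (A (j + 1)) ⊓ Off Y)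
    (h0 : ∀ w, w ⤳ z → D c w = 0) :
    ∃ b ∈ Hor Y A D j {w | w ⤳ z}, ∀ w, w ⤳ z → D b w = c w := by
  obtain ⟨b, hb, e⟩ := h.ex j hj z c hc.1 h0
  obtain ⟨a, -, h1, h2⟩ := h.make_hor hj.le hb
  have e' : ∀ w, w ⤳ z → D (b - D a) w = c w := fun w hw => by rw [map_sub, h2, sub_zero, e w hw]
  exact ⟨_, mem_hor.2 ⟨h1, fun y hy hz => (e' y hz).trans (hc.2 y hy)⟩, e'⟩

theorem zero_of_lt {j : ℕ} {z : X} (hz : z ∈ Y) (hlt : d < rk z + j) {c : Π₀ x, T x}
    (hc : c ∈ Deg (A j)) {w : X} (hY : w ∉ Y) (hw : w ⤳ z) : c w = 0 := by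
  by_contra hne
  have := h.dim j w hY (fun e => hne (AddSubgroup.mem_bot.1 (e ▸ hc w))) z hz hw
  omega

/-- A horizontal germ at a point of the critical rank is a cycle. -/
theorem cyc_of_hor {j : ℕ} {y : X} (hy : y ∈ Y) (e : rk y + j = d) {b : Π₀ x, T x}
    (hb : b ∈ Hor Y A D j {w | w ⤳ y}) (w : X) (hw : w ⤳ y) : D b w = 0 := by
  by_cases hY : w ∈ Y
  · exact (mem_hor.1 hb).2 w hY hw
  · exact h.zero_of_lt hy (by omega) (h.deg j b hb.1.1) hY hw

/-- Multiples of `q` are negligible. -/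
theorem nsmul_neg {q : ℕ} {F F' : Sh X} {r : F ⟶ F'}
    {ι : ∀ U : Opens X, F.obj.obj (op U) →+ Π₀ x, T x} (ha : Aug Y rk d A D N₀ q F F' r ι) (j : ℕ) :
    ∀ y ∈ Y, rk y + j = d → ∀ b ∈ Hor Y A D j {w | w ⤳ y},
      germ y (q • b) ∈ Neg Y rk d A D N₀ j y := by
  induction j with
  | zero =>
    intro y hy e b hb
    obtain ⟨U, hU, s, hs⟩ := ha.sur y b hb.1.1 (h.cyc_of_hor hy e hb)
    rw [map_nsmul, ← germ_congr hs, ← map_nsmul, ← map_nsmul]
    exact (ha.ker y hy e U hU _).2 ⟨U, hU, le_rfl, ap r U s,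
      (rs_refl F' _).trans (map_nsmul (ap r U) q s)⟩
  | succ j ih =>
    intro y hy e b hb
    obtain ⟨a, h1, h2⟩ := h.hor_ex (by omega) (mem_hor.1 hb).1 (h.cyc_of_hor hy e hb)
    refine mem_neg.2 ⟨q • a, nsmul_mem h1 q, fun y' hy' hs e' => ih y' hy' e' a (mem_hor.2
      ⟨(mem_hor.1 h1).1, fun w hw hw' => (mem_hor.1 h1).2 w hw (Specializes.trans hw' hs)⟩), ?_⟩
    rw [map_nsmul, map_nsmul, map_nsmul, germ_congr h2]

/-- The strong form of `Kill`, with horizontal chains. -/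
theorem kill_hor {q : ℕ} (hk : Kill Y rk d A D N₀ q) {c : Π₀ x, T x} (hc : c ∈ Deg (A d) ⊓ Off Y)
    (hn : ∀ x ∈ Y, rk x = 0 → germ x c ∈ Neg Y rk d A D N₀ d x) :
    ∃ b, (b = 0 ∨ ∃ e, d = e + 1 ∧ b ∈ Hor Y A D e Set.univ) ∧
      ∃ c' ∈ Deg (A d) ⊓ Off Y, c = D b + q • c' := by
  obtain ⟨b, hb, c', hc', e⟩ := hk c hc hn
  obtain ⟨a, ha, h1, -⟩ := h.make_hor le_rfl hc'
  have e1 : c = D (b + q • a) + q • (c' - D a) := by
    rw [e, map_add, map_nsmul, smul_sub]
    abel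
  cases d with
  | zero =>
    refine ⟨b + q • a, Or.inl ?_, _, h1, e1⟩
    rw [hb.resolve_right fun ⟨_, h, _⟩ => by omega, ha.resolve_right fun ⟨_, h, _⟩ => by omega,
      smul_zero, add_zero]
  | succ n =>
    have key : ∀ b : Π₀ x, T x, (b = 0 ∨ ∃ e, n + 1 = e + 1 ∧ b ∈ Deg (A e)) → b ∈ Deg (A n) := by
      rintro b (rfl | ⟨e, he, hb⟩)
      · exact zero_mem _
      · rwa [Nat.succ_injective he]
    obtain ⟨a', -, h2, h3⟩ := h.make_hor n.le_succ (add_mem (key b hb) (nsmul_mem (key a ha) q))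
    have e2 : D (b + q • a - D a') = D (b + q • a) := by rw [map_sub, h3, sub_zero]
    refine ⟨_, Or.inr ⟨n, rfl, mem_hor.2 ⟨h2, fun y hy _ => ?_⟩⟩, _, h1, by rw [e2, ← e1]⟩
    rw [e2, ← sub_eq_iff_eq_add.2 e1]
    exact (sub_mem hc.2 (nsmul_mem h1.2 q) : _ ∈ Off Y) y hy

end Cx

end Pool.Agent.KEW.Coh

end MrgPart3

-- ======== part 4: formerly Pool.Agent.MP_55d974_ag.coh.Tow
section MrgPart4

/-! PROJECT KEW, section 4: the towers of sheaves of horizontal and of negligible chains. -/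

open CategoryTheory TopologicalSpace Opposite Limits

namespace Pool.Agent.KEW.Coh

variable {X : TopCat.{0}} {T : X → Type} [∀ x, AddCommGroup (T x)]
  {Y : Set X} {rk : X → ℕ} {d : ℕ} {A : ℕ → ∀ x, AddSubgroup (T x)}
  {D : (Π₀ x, T x) →+ Π₀ x, T x}

/-- The subgroup `B z` where `p` holds, and zero elsewhere. -/
def only (B : ∀ x, AddSubgroup (T x)) (p : X → Prop) (z : X) : AddSubgroup (T z) :=
  B z ⊓ ⨅ _ : ¬p z, ⊥

theorem mem_only {B : ∀ x, AddSubgroup (T x)} {p : X → Prop} {z : X} {b : Π₀ x, T x} :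
    b ∈ (ptw (only B p)).P z ↔ b z ∈ B z ∧ (¬p z → b z = 0) :=
  and_congr_right' AddSubgroup.mem_iInf

/-- Horizontal chains of degree `j` with boundary zero on `S` and germs in `N` on `R`. -/
noncomputable def Cx.L (h : Cx Y rk d A D) (j : ℕ) (S R : Set X)
    (N : X → AddSubgroup (Π₀ x, T x)) : LP T where
  P z := (ptw (only (A j) (· ∉ Y))).P z ⊓
    (⨅ _ : z ∈ S, ((DFinsupp.evalAddMonoidHom z).comp D).ker) ⊓ ⨅ _ : z ∈ R, (N z).comap (germ z)
  loc z b hb := ⟨⟨LP.loc _ z b hb, AddSubgroup.mem_iInf.2 fun _ => h.loc b z hb⟩,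
    AddSubgroup.mem_iInf.2 fun _ => by
      change germ z b ∈ N z
      rw [germ_congr (c := 0) hb, map_zero]
      exact zero_mem _⟩

variable (h : Cx Y rk d A D) {j : ℕ} {S R : Set X} {N : X → AddSubgroup (Π₀ x, T x)}

theorem Cx.mem_L {z : X} {b : Π₀ x, T x} : b ∈ (h.L j S R N).P z ↔
    ((b z ∈ A j z ∧ (z ∈ Y → b z = 0)) ∧ (z ∈ S → D b z = 0)) ∧ (z ∈ R → germ z b ∈ N z) :=
  and_congr (and_congr (mem_only.trans (by rw [not_not])) AddSubgroup.mem_iInf) AddSubgroup.mem_iInf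

theorem Cx.mem_L_of {z : X} {b : Π₀ x, T x} (h1 : b ∈ Deg (A j) ⊓ Off Y) (h2 : z ∈ S → D b z = 0)
    (h3 : z ∈ R → germ z b ∈ N z) : b ∈ (h.L j S R N).P z :=
  h.mem_L.2 ⟨⟨⟨h1.1 z, h1.2 z⟩, h2⟩, h3⟩

variable [NoetherianSpace X]

theorem Cx.val_deg {U : Opens X} (s : (h.L j S R N).sh.obj.obj (op U)) :
    (h.L j S R N).val U s ∈ Deg (A j) ⊓ Off Y := by
  refine ⟨fun w => ?_, fun w hw => ?_⟩ <;> by_cases hU : w ∈ U
  · exact (h.mem_L.1 (LP.val_mem _ s hU)).1.1.1
  · rw [LP.val_off _ s hU]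
    exact zero_mem _
  · exact (h.mem_L.1 (LP.val_mem _ s hU)).1.1.2 hw
  · exact LP.val_off _ s hU

theorem Cx.val_d {U : Opens X} (s : (h.L j S R N).sh.obj.obj (op U)) {z : X} (hz : z ∈ U)
    (hS : z ∈ S) : D ((h.L j S R N).val U s) z = 0 := (h.mem_L.1 (LP.val_mem _ s hz)).1.2 hS

theorem Cx.val_n {U : Opens X} (s : (h.L j S R N).sh.obj.obj (op U)) {z : X} (hz : z ∈ U)
    (hR : z ∈ R) : germ z ((h.L j S R N).val U s) ∈ N z := (h.mem_L.1 (LP.val_mem _ s hz)).2 hR

theorem Cx.val_hor {U : Opens X} (s : (h.L j Y R N).sh.obj.obj (op U)) {z : X} (hz : z ∈ U) :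
    (h.L j Y R N).val U s ∈ Hor Y A D j {w | w ⤳ z} :=
  mem_hor.2 ⟨h.val_deg s, fun _ hy hs => h.val_d s (Specializes.mem_open hs U.2 hz) hy⟩

theorem Cx.incl {S' R' : Set X} (hS : S' ⊆ S) (hR : R' ⊆ R) :
    ∃ φ : (h.L j S R N).sh ⟶ (h.L j S' R' N).sh,
      ∀ U s, (h.L j S' R' N).val U (ap φ U s) = (h.L j S R N).val U s :=
  LP.exists_incl _ _ fun _ _ hb =>
    h.mem_L.2 ⟨⟨(h.mem_L.1 hb).1.1, fun hz => (h.mem_L.1 hb).1.2 (hS hz)⟩,
      fun hz => (h.mem_L.1 hb).2 (hR hz)⟩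

/-- A section of the larger sheaf that satisfies the stronger conditions. -/
theorem incl_ex {L L' : LP T} {φ : L.sh ⟶ L'.sh} (hφ : ∀ U s, L'.val U (ap φ U s) = L.val U s)
    {U : Opens X} (t : L'.sh.obj.obj (op U)) (ht : ∀ z ∈ U, L'.val U t ∈ L.P z) :
    ∃ s, ap φ U s = t :=
  ⟨L.mk' _ ht, LP.ext fun w hw => by rw [hφ, L.val_mk _ _ hw]⟩

theorem incl_inj {L L' : LP T} {φ : L.sh ⟶ L'.sh} (hφ : ∀ U s, L'.val U (ap φ U s) = L.val U s)
    (U : Opens X) (s) (e : ap φ U s = 0) : s = 0 :=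
  LP.ext0 fun w _ => by rw [← hφ, e, map_zero, DFinsupp.zero_apply]

theorem Cx.dmap {R' : Set X} {N' : X → AddSubgroup (Π₀ x, T x)}
    (hN : ∀ U s, ∀ z ∈ U, z ∈ R' → germ z (D ((h.L j Y R N).val U s)) ∈ N' z) :
    ∃ φ : (h.L j Y R N).sh ⟶ (h.L (j + 1) Set.univ R' N').sh, ∀ U s, ∀ x ∈ U,
      (h.L (j + 1) Set.univ R' N').val U (ap φ U s) x = D ((h.L j Y R N).val U s) x :=
  LP.exists_map _ _ D h.loc fun U s z hz => h.mem_L.2
    ⟨⟨⟨h.deg j _ (h.val_deg s).1 z, h.val_d s hz⟩, fun _ => by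
      rw [h.dd j _ (h.val_deg s).1, DFinsupp.zero_apply]⟩, hN U s z hz⟩

/-- Left exactness of cycles, chains, boundaries. -/
theorem Cx.left {L' : LP T} {i : (h.L j Set.univ R N).sh ⟶ (h.L j Y R N).sh}
    {φ : (h.L j Y R N).sh ⟶ L'.sh}
    (hi : ∀ U s, (h.L j Y R N).val U (ap i U s) = (h.L j Set.univ R N).val U s)
    (hφ : ∀ U s, ∀ x ∈ U, L'.val U (ap φ U s) x = D ((h.L j Y R N).val U s) x) :
    i ≫ φ = 0 ∧ ∀ U s, ap φ U s = 0 → ∃ t, ap i U t = s :=
  ⟨hom_ext fun U s => LP.ext0 fun w hw => by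
    rw [ap_comp, hφ _ _ w hw, hi]
    exact h.val_d s hw trivial,
  fun U s e => incl_ex hi s fun z hz => h.mem_L_of (h.val_deg s)
    (fun _ => by rw [← hφ U s z hz, e, map_zero, DFinsupp.zero_apply]) (h.val_n s hz)⟩

/-- The sheaf of horizontal chains is acyclic. -/
theorem Cx.acy_hor (hj : j ≤ d) : Acy (h.L j Y ∅ N).sh := by
  obtain ⟨i, hi⟩ := (h.L j Y ∅ N).exists_incl (ptw (only (A j) (· ∉ Y))) fun _ _ hb => hb.1.1
  have deg : ∀ {k p U} (s : (ptw (only (A k) p)).sh.obj.obj (op U)),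
      (ptw (only (A k) p)).val U s ∈ Deg (A k) ⊓ Off {w | ¬p w} := fun {k p U} s => by
    refine ⟨fun w => ?_, fun w hw => ?_⟩ <;> by_cases hU : w ∈ U
    · exact (mem_only.1 (LP.val_mem _ s hU)).1
    · rw [LP.val_off _ s hU]
      exact zero_mem _
    · exact (mem_only.1 (LP.val_mem _ s hU)).2 hw
    · exact LP.val_off _ s hU
  have hcut : ∀ (b : Π₀ x, T x) z, (z ∈ Y → b z = 0) → cut Y b z = 0 := fun b z hb => by
    by_cases hz : z ∈ Y
    · rw [cut_pos hz, hb hz]
    · exact cut_neg hz b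
  obtain ⟨φ, hφ⟩ := (ptw (only (A j) (· ∉ Y))).exists_map (ptw (only (A (j + 1)) (· ∈ Y)))
    ((cut Y).comp D) (fun b z hb => hcut _ z fun _ => h.loc b z hb) fun U s z _ =>
      mem_only.2 ⟨by
        rw [AddMonoidHom.comp_apply]
        by_cases hz : z ∈ Y
        · rw [cut_pos hz]
          exact h.deg j _ (deg s).1 z
        · rw [cut_neg hz]
          exact zero_mem _, fun hz => cut_neg hz _⟩
  have sur : ∀ U t, ∃ s, ap φ U s = t := fun U t => by
    obtain ⟨b, hb, e⟩ := h.move_all hj (deg t).1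
    refine ⟨LP.mk' _ b fun z _ => mem_only.2 ⟨hb.1 z, fun hz => hb.2 z (not_not.1 hz)⟩,
      LP.ext fun w hw => (hφ U _ w hw).trans ?_⟩
    by_cases hY : w ∈ Y
    · exact (cut_pos hY _).trans ((h.congr fun v hv =>
        LP.val_mk _ _ _ (hv.mem_open U.2 hw)).trans (e w hY))
    · exact (cut_neg hY _).trans ((deg t).2 w hY).symm
  refine acy_ker (shortExact_of (f := i) (g := φ) (hom_ext fun U s => LP.ext0 fun w hw => ?_)
    (incl_inj hi) (fun U s e => incl_ex hi s fun z hz => ?_) (lsur_of sur)) (acy_ptw _) (acy_ptw _)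
    (sur ⊤)
  · rw [ap_comp, hφ _ _ w hw, hi]
    exact hcut _ w (h.val_d s hw)
  · refine h.mem_L_of ⟨(deg s).1, fun w hw => (deg s).2 w (not_not.2 hw)⟩ (fun hY => ?_) False.elim
    rw [← cut_pos hY]
    exact (hφ U s z hz).symm.trans (by rw [e, map_zero, DFinsupp.zero_apply])

variable [QuasiSober X]

include h in
theorem Cx.fin_germ {b : Π₀ x, T x} (hb : b ∈ Deg (A j) ⊓ Off Y) :
    {y | y ∈ Y ∧ rk y + j = d ∧ germ y b ≠ 0}.Finite := by
  refine (fin_top h.lt (h.closed.inter ((fin_supp b).isClosed_biUnion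
    fun w _ => isClosed_closure (s := {w}))) ⊤ (j := j) (m := d) fun g hg _ => ⟨hg.1, ?_⟩).subset
    fun y hy => ⟨⟨hy.1, by_contra fun hn => hy.2.2 ?_⟩, trivial, hy.2.1⟩
  · obtain ⟨w, hw, hm⟩ := Set.mem_iUnion₂.1 hg.2
    by_contra hn
    exact hw (h.zero_of_lt hg.1 (by omega) hb.1 (fun hY => hw (hb.2 w hY))
      (specializes_iff_mem_closure.2 hm))
  · rw [germ_congr (c := 0) fun w hw => by_contra fun hne =>
      hn (Set.mem_biUnion hne (specializes_iff_mem_closure.1 hw)), map_zero]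

/-- The sheaf of negligible chains is acyclic. -/
theorem Cx.acy_neg (hj : j ≤ d) (hl : ∀ y ∈ Y, rk y + j = d → ∀ b ∈ Hor Y A D j {w | w ⤳ y},
    ∃ b' ∈ Hor Y A D j Set.univ, germ y (b' - b) ∈ N y ∧
      ∀ y' ∈ Y, rk y' + j = d → y' ≠ y → germ y' b' ∈ N y') :
    Acy (h.L j Y {y | y ∈ Y ∧ rk y + j = d} N).sh := by
  classical
  obtain ⟨i, hi⟩ := h.incl (j := j) (N := N) (subset_refl Y)
    (Set.empty_subset {y | y ∈ Y ∧ rk y + j = d})
  let ρ : ∀ y, (Π₀ x, T x) →+ (Π₀ x, T x) ⧸ N y := fun y =>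
    (QuotientAddGroup.mk' (N y)).comp (germ y)
  have hρ : ∀ y b, ρ y b = 0 ↔ germ y b ∈ N y := fun y b => QuotientAddGroup.eq_zero_iff _
  let L := ptw (only (fun y => (Hor Y A D j {w | w ⤳ y}).map (ρ y)) fun y => y ∈ Y ∧ rk y + j = d)
  obtain ⟨φ, hφ⟩ := L.exists_hom (h.L j Y ∅ N).sh
    (fun U s y => if y ∈ Y ∧ rk y + j = d then ρ y ((h.L j Y ∅ N).val U s) else 0)
    (fun U s t x _ => by split_ifs <;> simp) (fun U s => by
      obtain ⟨b, hb⟩ := exists_chain
        (fun y => if y ∈ Y ∧ rk y + j = d then ρ y ((h.L j Y ∅ N).val U s) else 0)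
        ((h.fin_germ (h.val_deg s)).subset fun y hy => by
          have h1 : y ∈ Y ∧ rk y + j = d := by_contra fun h1 => hy (if_neg h1)
          exact ⟨h1.1, h1.2, fun e => hy ((if_pos h1).trans ((hρ _ _).2 (e ▸ zero_mem _)))⟩)
      refine ⟨b, fun x _ => hb x, fun z hz => mem_only.2 ⟨?_, fun hn => (hb z).trans (if_neg hn)⟩⟩
      rw [hb]
      split_ifs
      · exact ⟨_, h.val_hor s hz, rfl⟩
      · exact zero_mem _)
    (fun U V le s x hx => by
      split_ifs
      · exact congrArg (QuotientAddGroup.mk' (N x))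
          (germ_congr fun w hw => LP.val_rs _ le s (hw.mem_open V.2 hx))
      · rfl)
  have sur : ∀ U t, ∃ s, ap φ U s = t := fun U t => by
    obtain ⟨b, hb, e⟩ := sum_single (Hor Y A D j Set.univ) ρ {y | y ∈ Y ∧ rk y + j = d} (L.val U t)
      fun y hy => by
        by_cases hU : y ∈ U
        · obtain ⟨a, ha, e⟩ := (mem_only.1 (L.val_mem t hU)).1
          obtain ⟨b, h1, h2, h3⟩ := hl y hy.1 hy.2 a ha
          exact ⟨b, h1, by rw [← e, ← sub_eq_zero, ← map_sub, hρ]; exact h2,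
            fun y' hy' hne => (hρ _ _).2 (h3 y' hy'.1 hy'.2 hne)⟩
        · exact ⟨0, zero_mem _, (map_zero _).trans (L.val_off t hU).symm, fun _ _ _ => map_zero _⟩
    refine ⟨LP.mk' _ b fun z _ => h.mem_L_of (mem_hor.1 hb).1
      (fun hz => (mem_hor.1 hb).2 z hz trivial) False.elim,
      LP.ext fun w hw => (hφ U _ w hw).trans ?_⟩
    split_ifs with h1
    · exact (congrArg (QuotientAddGroup.mk' (N w))
        (germ_congr fun v hv => LP.val_mk _ _ _ (hv.mem_open U.2 hw))).trans (e w h1)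
    · exact ((mem_only.1 (L.val_mem t hw)).2 h1).symm
  refine acy_ker (shortExact_of (f := i) (g := φ) (hom_ext fun U s => LP.ext0 fun w hw => ?_)
    (incl_inj hi) (fun U s e => incl_ex hi s fun z hz => ?_) (lsur_of sur)) (h.acy_hor hj)
    (acy_ptw _) (sur ⊤)
  · rw [ap_comp, hφ _ _ w hw, hi]
    split_ifs with h1
    · exact (hρ _ _).2 (h.val_n s hw h1)
    · rfl
  · refine h.mem_L_of (h.val_deg s) (h.val_d s hz) fun h1 => (hρ _ _).1 ?_
    exact ((hφ U s z hz).trans (if_pos h1)).symm.trans (by rw [e, map_zero, DFinsupp.zero_apply])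

/-- The boundary map is locally onto where a suitable primitive germ exists. -/
theorem Cx.lsur_d {L' : LP T} {φ : (h.L j Y R N).sh ⟶ L'.sh}
    (hφ : ∀ U s, ∀ x ∈ U, L'.val U (ap φ U s) x = D ((h.L j Y R N).val U s) x)
    (hR : ∀ y ∈ R, y ∈ Y ∧ rk y + j = d) {z : X}
    (hz : ∀ U, z ∈ U → ∀ t, ∃ b ∈ Hor Y A D j {w | w ⤳ z}, (∀ y ∈ R, y ⤳ z → germ y b ∈ N y) ∧
      ∀ w, w ⤳ z → D b w = L'.val U t w) : LSur φ z := by
  refine L'.lsur φ fun U hU t => ?_
  obtain ⟨b, h1, h2, h3⟩ := hz U hU t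
  obtain ⟨V, hV, -, hB⟩ := exists_nbhd (B := {y | y ∈ Y ∧ D b y ≠ 0} ∪ {y | y ∈ R ∧ germ y b ∉ N y})
    (((fin_supp (D b)).subset fun _ hy => hy.2).union ((h.fin_germ (mem_hor.1 h1).1).subset
      fun y hy => ⟨(hR y hy.1).1, (hR y hy.1).2, fun e => hy.2 (e ▸ zero_mem _)⟩))
    (fun y hy hs => hy.elim (fun hy => hy.2 ((mem_hor.1 h1).2 y hy.1 hs))
      fun hy => hy.2 (h2 y hy.1 hs)) hU
  refine ⟨V, hV, LP.mk' _ b fun y hy => h.mem_L_of (mem_hor.1 h1).1
    (fun hY => by_contra fun hn => hB y (Or.inl ⟨hY, hn⟩) hy)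
    fun hY => by_contra fun hn => hB y (Or.inr ⟨hY, hn⟩) hy, fun w hw => ?_⟩
  have hw' := hw.mem_open V.2 hV
  exact (hφ V _ w hw').trans ((h.congr fun v hv =>
    LP.val_mk _ _ _ (hv.mem_open V.2 hw')).trans (h3 w hw))

end Pool.Agent.KEW.Coh

end MrgPart4

-- marker of a merged file
example : 731051 + 295551 = 731051 + 295551 := rfl
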